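import Mathlib

/-!
# Finite join-semilattice orders: basic facts

`JSL R` : `R` is a partial order in which any two elements have a least upper bound.
`MI R m` : `m` is meet irreducible (there is a least element strictly above `m`).
`dn R m` : the number of elements below `m`.
-/

set_option autoImplicit false

namespace Pool.Agent.N363.SL

open Finset
open scoped Classical

/-- partial orders in which any two elements have a least upper bound -/
structure JSL {α : Type} (R : α → α → Prop) : Prop where
  refl : ∀ x, R x x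
  antisymm : ∀ x y, R x y → R y x → x = y
  trans : ∀ x y z, R x y → R y z → R x z
  join : ∀ x y, ∃ z, R x z ∧ R y z ∧ ∀ w, R x w → R y w → R z w

/-- `m` is meet irreducible: there is a least element strictly above `m` -/
def MI {α : Type} (R : α → α → Prop) (m : α) : Prop :=
  ∃ p, R m p ∧ p ≠ m ∧ ∀ z, R m z → z ≠ m → R p z

/-- the number of elements below `m` -/
noncomputable def dn {α : Type} [Fintype α] (R : α → α → Prop) (m : α) : ℕ :=
  (univ.filter (fun x => R x m)).card

section

variable {α : Type} [Fintype α] {R : α → α → Prop}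

theorem dn_le (h : JSL R) {x y : α} (hxy : R x y) : dn R x ≤ dn R y := by
  apply card_le_card
  intro z hz
  simp only [mem_filter, mem_univ, true_and] at hz ⊢
  exact h.trans _ _ _ hz hxy

theorem dn_lt (h : JSL R) {x y : α} (hxy : R x y) (hne : x ≠ y) : dn R x < dn R y := by
  apply card_lt_card
  refine ⟨?_, ?_⟩
  · intro z hz
    simp only [mem_filter, mem_univ, true_and] at hz ⊢
    exact h.trans _ _ _ hz hxy
  · intro hsub
    have h1 : y ∈ univ.filter (fun z => R z x) := hsub (by simp [h.refl y])
    simp only [mem_filter, mem_univ, true_and] at h1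
    exact hne (h.antisymm _ _ hxy h1)

theorem dn_pos (h : JSL R) (x : α) : 0 < dn R x :=
  card_pos.2 ⟨x, by simp [h.refl x]⟩

theorem dn_le_card (x : α) : dn R x ≤ Fintype.card α := card_le_univ _

/-- separation by meet irreducible elements -/
theorem exists_MI (h : JSL R) {x y : α} (hxy : ¬ R x y) : ∃ m, MI R m ∧ R y m ∧ ¬ R x m := by
  obtain ⟨m, hm, hmax⟩ := exists_max_image (univ.filter (fun z => R y z ∧ ¬ R x z)) (dn R)
    ⟨y, by simp [h.refl y, hxy]⟩
  simp only [mem_filter, mem_univ, true_and] at hm hmax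
  obtain ⟨p, hp1, hp2, hp3⟩ := h.join m x
  refine ⟨m, ⟨p, hp1, ?_, ?_⟩, hm.1, hm.2⟩
  · rintro rfl
    exact hm.2 hp2
  · intro z hz hzm
    apply hp3 z hz
    by_contra hxz
    have h1 := hmax z ⟨h.trans _ _ _ hm.1 hz, hxz⟩
    have h2 := dn_lt h hz (Ne.symm hzm)
    omega

theorem exists_top [Nonempty α] (h : JSL R) : ∃ t, ∀ x, R x t := by
  obtain ⟨t, -, hmax⟩ := exists_max_image (univ : Finset α) (dn R) univ_nonempty
  refine ⟨t, fun x => ?_⟩
  obtain ⟨z, hz1, hz2, -⟩ := h.join t x
  by_cases hzt : z = t
  · rwa [hzt] at hz2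
  · have h1 := hmax z (mem_univ _)
    have h2 := dn_lt h hz1 (Ne.symm hzt)
    omega

end

/-! ### Covering -/

theorem cover {ι β : Type} [Fintype β] [Nonempty β] (S : Finset ι) (C : ι → Finset β) (k : ℕ)
    (hC : ∀ m ∈ S, k ≤ 2 * (C m).card) (r : ℕ) :
    ∃ y : Fin r → β, (S.filter (fun m => ∀ i, y i ∉ C m)).card * (2 * Fintype.card β) ^ r ≤
      S.card * (2 * Fintype.card β - k) ^ r := by
  induction r with
  | zero =>
    refine ⟨fun i => i.elim0, ?_⟩
    simp only [pow_zero, mul_one]
    exact card_filter_le _ _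
  | succ r ih =>
    obtain ⟨y, hy⟩ := ih
    obtain ⟨S', hS'⟩ : ∃ S', S' = S.filter (fun m => ∀ i, y i ∉ C m) := ⟨_, rfl⟩
    rw [← hS'] at hy
    have hsub : S' ⊆ S := by rw [hS']; exact filter_subset _ _
    obtain ⟨b, hb⟩ : ∃ b : β, S'.card * k ≤
        2 * Fintype.card β * (S'.filter (fun m => b ∈ C m)).card := by
      by_contra hcon
      push Not at hcon
      have h1 : ∑ b : β, 2 * Fintype.card β * (S'.filter (fun m => b ∈ C m)).card <
          ∑ _b : β, S'.card * k := sum_lt_sum_of_nonempty univ_nonempty fun b _ => hcon b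
      rw [← mul_sum, sum_const, card_univ, smul_eq_mul] at h1
      have h2 : ∑ b : β, (S'.filter (fun m => b ∈ C m)).card = ∑ m ∈ S', (C m).card := by
        simp_rw [card_filter]
        rw [sum_comm]
        refine sum_congr rfl fun m _ => ?_
        rw [← card_filter]
        congr 1
        ext b
        simp
      rw [h2] at h1
      have h3 : S'.card * k ≤ ∑ m ∈ S', 2 * (C m).card := by
        calc S'.card * k = ∑ _m ∈ S', k := by rw [sum_const, smul_eq_mul]
          _ ≤ _ := sum_le_sum fun m hm => hC m (hsub hm)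
      rw [← mul_sum] at h3
      have h4 := Nat.mul_le_mul_left (Fintype.card β) h3
      have h5 : Fintype.card β * (2 * ∑ m ∈ S', (C m).card) =
          2 * Fintype.card β * ∑ m ∈ S', (C m).card := by ring
      omega
    refine ⟨Fin.cons b y, ?_⟩
    have e1 : S.filter (fun m => ∀ i, (Fin.cons b y : Fin (r + 1) → β) i ∉ C m) =
        S'.filter (fun m => b ∉ C m) := by
      rw [hS', filter_filter]
      apply filter_congr
      intro m _
      rw [Fin.forall_fin_succ]
      simp only [Fin.cons_zero, Fin.cons_succ]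
      tauto
    rw [e1]
    have h1 := card_filter_add_card_filter_not (s := S') (fun m => b ∈ C m)
    obtain ⟨u, hu⟩ : ∃ u, u = (S'.filter (fun m => b ∉ C m)).card := ⟨_, rfl⟩
    obtain ⟨w, hw⟩ : ∃ w, w = (S'.filter (fun m => b ∈ C m)).card := ⟨_, rfl⟩
    rw [← hu, ← hw] at h1
    rw [← hw] at hb
    rw [← hu]
    obtain ⟨N, hN⟩ : ∃ N, N = 2 * Fintype.card β := ⟨_, rfl⟩
    rw [← hN] at hb hy ⊢
    have h2 : u * N ≤ S'.card * (N - k) := by
      rw [Nat.mul_sub, ← h1]
      rw [← h1] at hb
      have : (w + u) * N = w * N + u * N := by ring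
      rw [this]
      have h3 : N * w = w * N := mul_comm _ _
      omega
    calc u * N ^ (r + 1) = u * N * N ^ r := by ring
      _ ≤ S'.card * (N - k) * N ^ r := Nat.mul_le_mul_right _ h2
      _ = (S'.card * N ^ r) * (N - k) := by ring
      _ ≤ (S.card * (N - k) ^ r) * (N - k) := Nat.mul_le_mul_right _ hy
      _ = S.card * (N - k) ^ (r + 1) := by ring

/-! ### Every element with few elements below is described by few elements above it -/

theorem code_exists {α : Type} [Fintype α] {R : α → α → Prop} (h : JSL R) {k r : ℕ}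
    (hk : k < 2 * Fintype.card α)
    (hr : Fintype.card α * (2 * Fintype.card α - k) ^ r < (2 * Fintype.card α) ^ r) {v : α}
    (hv : 2 * dn R v ≤ k) :
    ∃ c : Fin r → α, (∀ i, R v (c i) ∧ c i ≠ v) ∧
      ∀ m, MI R m → R v m → k < dn R m → ∃ i, R (c i) m := by
  have : Nonempty α := ⟨v⟩
  obtain ⟨t, ht⟩ := exists_top h
  have htv : t ≠ v := by
    rintro rfl
    have h1 : dn R t = Fintype.card α := by
      unfold dn
      rw [filter_true_of_mem (fun x _ => ht x), card_univ]
    omega
  obtain ⟨S, hS⟩ : ∃ S, S = univ.filter (fun m => R v m ∧ k < dn R m) := ⟨_, rfl⟩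
  obtain ⟨y, hy⟩ := cover S (fun m => univ.filter (fun y => R y m ∧ ¬ R y v)) k (by
    intro m hm
    rw [hS] at hm
    simp only [mem_filter, mem_univ, true_and] at hm
    have h1 := card_filter_add_card_filter_not (s := univ.filter (fun y => R y m))
      (fun y => R y v)
    rw [filter_filter, filter_filter] at h1
    have h2 : (univ.filter (fun y => R y m ∧ R y v)).card ≤ dn R v := by
      apply card_le_card
      intro z hz
      simp only [mem_filter, mem_univ, true_and] at hz ⊢
      exact hz.2
    have h3 : (univ.filter (fun y => R y m)).card = dn R m := rfl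
    omega) r
  have hzero : (S.filter (fun m => ∀ i, y i ∉ univ.filter (fun y => R y m ∧ ¬ R y v))).card = 0 := by
    by_contra hne
    have h1 : 1 ≤ (S.filter (fun m => ∀ i, y i ∉ univ.filter (fun y => R y m ∧ ¬ R y v))).card :=
      Nat.one_le_iff_ne_zero.2 hne
    have h2 := Nat.mul_le_mul_right ((2 * Fintype.card α) ^ r) h1
    have h3 : S.card ≤ Fintype.card α := card_le_univ _
    have h4 := Nat.mul_le_mul_right ((2 * Fintype.card α - k) ^ r) h3
    omega
  rw [card_eq_zero] at hzero
  choose jn hj1 hj2 hj3 using h.join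
  refine ⟨fun i => if R (y i) v then t else jn v (y i), ?_, ?_⟩
  · intro i
    by_cases hi : R (y i) v
    · simp only [hi, if_true]
      exact ⟨ht v, htv⟩
    · simp only [hi, if_false]
      refine ⟨hj1 _ _, fun he => hi ?_⟩
      have := hj2 v (y i)
      rwa [he] at this
  · intro m _ hvm hkm
    have hmS : m ∈ S := by
      rw [hS]
      simp [hvm, hkm]
    have h1 : m ∉ S.filter (fun m => ∀ i, y i ∉ univ.filter (fun y => R y m ∧ ¬ R y v)) := by
      rw [hzero]
      exact notMem_empty _
    simp only [mem_filter, hmS, true_and, mem_univ, not_forall, not_not] at h1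
    obtain ⟨i, hi1, hi2⟩ := h1
    refine ⟨i, ?_⟩
    simp only [hi2, if_false]
    exact hj3 _ _ _ hvm hi1

end Pool.Agent.N363.SL
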