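import Pool.Agent.N363.SL.Basic

/-!
# Encoding of join-semilattice orders

An order is determined by its restriction to the set `D` of the elements with many elements below
them, by `r` elements above each of the other elements, and by the relation between the other
elements and the meet irreducible elements with few elements below them.
-/

set_option autoImplicit false

namespace Pool.Agent.N363.SL

open Finset
open scoped Classical

section

variable {α : Type} [Fintype α] {R R' : α → α → Prop}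

theorem MI_transfer (h : JSL R) (h' : JSL R') {k : ℕ} {D : Finset α}
    (hD : ∀ x, x ∈ D ↔ k < 2 * dn R x) (hD' : ∀ x, x ∈ D ↔ k < 2 * dn R' x)
    (hres : ∀ x ∈ D, ∀ y ∈ D, R x y ↔ R' x y) {m : α} (hm : m ∈ D) (hMI : MI R m) : MI R' m := by
  obtain ⟨p, hp1, hp2, hp3⟩ := hMI
  have hup : ∀ z, R m z → z ∈ D := by
    intro z hz
    rw [hD]
    have h1 := dn_le h hz
    have h2 := (hD m).1 hm
    omega
  have hup' : ∀ z, R' m z → z ∈ D := by
    intro z hz
    rw [hD']
    have h1 := dn_le h' hz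
    have h2 := (hD' m).1 hm
    omega
  refine ⟨p, (hres m hm p (hup p hp1)).1 hp1, hp2, ?_⟩
  intro z hz hzm
  have hzD := hup' z hz
  exact (hres p (hup p hp1) z hzD).1 (hp3 z ((hres m hm z hzD).2 hz) hzm)

theorem MI_iff (h : JSL R) (h' : JSL R') {k : ℕ} {D B : Finset α}
    (hD : ∀ x, x ∈ D ↔ k < 2 * dn R x) (hD' : ∀ x, x ∈ D ↔ k < 2 * dn R' x)
    (hB : ∀ m, m ∈ B ↔ MI R m ∧ dn R m ≤ k) (hB' : ∀ m, m ∈ B ↔ MI R' m ∧ dn R' m ≤ k)
    (hres : ∀ x ∈ D, ∀ y ∈ D, R x y ↔ R' x y) (m : α) : MI R m ↔ MI R' m := by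
  by_cases hm : m ∈ D
  · exact ⟨MI_transfer h h' hD hD' hres hm,
      MI_transfer h' h hD' hD (fun x hx y hy => (hres x hx y hy).symm) hm⟩
  · have h1 : dn R m ≤ k := by
      rw [hD] at hm
      omega
    have h2 : dn R' m ≤ k := by
      rw [hD'] at hm
      omega
    have h3 := hB m
    have h4 := hB' m
    constructor
    · intro h5
      exact (h4.1 (h3.2 ⟨h5, h1⟩)).1
    · intro h5
      exact (h3.1 (h4.2 ⟨h5, h2⟩)).1

theorem above_iff (h : JSL R) (h' : JSL R') {k r : ℕ} {D B : Finset α}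
    (hD : ∀ x, x ∈ D ↔ k < 2 * dn R x) (hD' : ∀ x, x ∈ D ↔ k < 2 * dn R' x)
    (hB : ∀ m, m ∈ B ↔ MI R m ∧ dn R m ≤ k) (hB' : ∀ m, m ∈ B ↔ MI R' m ∧ dn R' m ≤ k)
    (hres : ∀ x ∈ D, ∀ y ∈ D, R x y ↔ R' x y) (c : α → Fin r → α)
    (hc : ∀ v, v ∉ D → (∀ i, R v (c v i) ∧ c v i ≠ v) ∧
      ∀ m, MI R m → R v m → k < dn R m → ∃ i, R (c v i) m)
    (hc' : ∀ v, v ∉ D → (∀ i, R' v (c v i) ∧ c v i ≠ v) ∧
      ∀ m, MI R' m → R' v m → k < dn R' m → ∃ i, R' (c v i) m)
    (hN : ∀ v, v ∉ D → ∀ m ∈ B, R v m ↔ R' v m) :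
    ∀ (t : ℕ) (v : α), Fintype.card α - dn R v ≤ t → ∀ m, MI R m → (R v m ↔ R' v m) := by
  intro t
  induction t with
  | zero =>
    intro v hv m hm
    -- v is the top
    have h0 := dn_le_card (R := R) v
    have h1 : dn R v = Fintype.card α := by omega
    have h2 : ∀ x, R x v := by
      have h3 : univ.filter (fun x => R x v) = univ := by
        apply eq_univ_of_card
        exact h1
      intro x
      have h4 : x ∈ univ.filter (fun x => R x v) := by rw [h3]; exact mem_univ _
      simpa using h4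
    by_cases hvD : v ∈ D
    · constructor
      · intro hvm
        have hmv : m = v := h.antisymm _ _ (h2 m) hvm
        rw [hmv]
        exact h'.refl v
      · intro hvm
        have hmD : m ∈ D := by
          rw [hD']
          have h5 := dn_le h' hvm
          have h6 := (hD' v).1 hvD
          omega
        exact (hres v hvD m hmD).2 hvm
    · obtain ⟨hc1, hc2⟩ := hc v hvD
      obtain ⟨hc1', hc2'⟩ := hc' v hvD
      have hMI' := (MI_iff h h' hD hD' hB hB' hres m).1 hm
      by_cases hmB : m ∈ B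
      · exact hN v hvD m hmB
      · have hk : k < dn R m := by
          by_contra hcon
          exact hmB ((hB m).2 ⟨hm, by omega⟩)
        have hk' : k < dn R' m := by
          by_contra hcon
          exact hmB ((hB' m).2 ⟨hMI', by omega⟩)
        constructor
        · intro hvm
          obtain ⟨i, -⟩ := hc2 m hm hvm hk
          obtain ⟨h5, h6⟩ := hc1 i
          exact absurd (h.antisymm _ _ (h2 _) h5) h6
        · intro hvm
          obtain ⟨i, -⟩ := hc2' m hMI' hvm hk'
          obtain ⟨h5, h6⟩ := hc1 i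
          exact absurd (h.antisymm _ _ (h2 _) h5) h6
  | succ t ih =>
    intro v hv m hm
    have hMI' := (MI_iff h h' hD hD' hB hB' hres m).1 hm
    by_cases hvD : v ∈ D
    · constructor
      · intro hvm
        have hmD : m ∈ D := by
          rw [hD]
          have h5 := dn_le h hvm
          have h6 := (hD v).1 hvD
          omega
        exact (hres v hvD m hmD).1 hvm
      · intro hvm
        have hmD : m ∈ D := by
          rw [hD']
          have h5 := dn_le h' hvm
          have h6 := (hD' v).1 hvD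
          omega
        exact (hres v hvD m hmD).2 hvm
    · obtain ⟨hc1, hc2⟩ := hc v hvD
      obtain ⟨hc1', hc2'⟩ := hc' v hvD
      by_cases hmB : m ∈ B
      · exact hN v hvD m hmB
      · have hk : k < dn R m := by
          by_contra hcon
          exact hmB ((hB m).2 ⟨hm, by omega⟩)
        have hk' : k < dn R' m := by
          by_contra hcon
          exact hmB ((hB' m).2 ⟨hMI', by omega⟩)
        have hstep : ∀ i, Fintype.card α - dn R (c v i) ≤ t := by
          intro i
          obtain ⟨h5, h6⟩ := hc1 i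
          have h7 := dn_lt h h5 h6.symm
          have h8 := dn_le_card (R := R) (c v i)
          omega
        constructor
        · intro hvm
          obtain ⟨i, hi⟩ := hc2 m hm hvm hk
          exact h'.trans _ _ _ (hc1' i).1 ((ih _ (hstep i) m hm).1 hi)
        · intro hvm
          obtain ⟨i, hi⟩ := hc2' m hMI' hvm hk'
          exact h.trans _ _ _ (hc1 i).1 ((ih _ (hstep i) m hm).2 hi)

theorem code_inj (h : JSL R) (h' : JSL R') {k r : ℕ} {D B : Finset α}
    (hD : ∀ x, x ∈ D ↔ k < 2 * dn R x) (hD' : ∀ x, x ∈ D ↔ k < 2 * dn R' x)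
    (hB : ∀ m, m ∈ B ↔ MI R m ∧ dn R m ≤ k) (hB' : ∀ m, m ∈ B ↔ MI R' m ∧ dn R' m ≤ k)
    (hres : ∀ x ∈ D, ∀ y ∈ D, R x y ↔ R' x y) (c : α → Fin r → α)
    (hc : ∀ v, v ∉ D → (∀ i, R v (c v i) ∧ c v i ≠ v) ∧
      ∀ m, MI R m → R v m → k < dn R m → ∃ i, R (c v i) m)
    (hc' : ∀ v, v ∉ D → (∀ i, R' v (c v i) ∧ c v i ≠ v) ∧
      ∀ m, MI R' m → R' v m → k < dn R' m → ∃ i, R' (c v i) m)
    (hN : ∀ v, v ∉ D → ∀ m ∈ B, R v m ↔ R' v m) : R = R' := by
  have key : ∀ v m, MI R m → (R v m ↔ R' v m) := fun v m hm =>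
    above_iff h h' hD hD' hB hB' hres c hc hc' hN _ v le_rfl m hm
  have hMI := MI_iff h h' hD hD' hB hB' hres
  funext x y
  apply propext
  constructor
  · intro hxy
    by_contra hcon
    obtain ⟨m, hm, hym, hxm⟩ := exists_MI h' hcon
    have hm' := (hMI m).2 hm
    exact hxm ((key x m hm').1 (h.trans _ _ _ hxy ((key y m hm').2 hym)))
  · intro hxy
    by_contra hcon
    obtain ⟨m, hm, hym, hxm⟩ := exists_MI h hcon
    exact hxm ((key x m hm).2 (h'.trans _ _ _ hxy ((key y m hm).1 hym)))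

end

/-! ### Counting -/

/-- the number of join-semilattice orders on `α` -/
noncomputable def sN (α : Type) : ℕ := Nat.card {R : α → α → Prop // JSL R}

theorem JSL_congr {α β : Type} (e : α ≃ β) {R : α → α → Prop} (h : JSL R) :
    JSL (fun x y : β => R (e.symm x) (e.symm y)) where
  refl x := h.refl _
  antisymm x y h1 h2 := e.symm.injective (h.antisymm _ _ h1 h2)
  trans x y z h1 h2 := h.trans _ _ _ h1 h2
  join x y := by
    obtain ⟨z, h1, h2, h3⟩ := h.join (e.symm x) (e.symm y)
    refine ⟨e z, by simpa using h1, by simpa using h2, ?_⟩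
    intro w hw1 hw2
    simpa using h3 _ hw1 hw2

theorem sN_le_of_equiv {α β : Type} [Finite β] (e : α ≃ β) : sN α ≤ sN β := by
  unfold sN
  refine Nat.card_le_card_of_injective
    (fun R => (⟨fun x y => R.1 (e.symm x) (e.symm y), JSL_congr e R.2⟩ :
      {R : β → β → Prop // JSL R})) ?_
  intro R R' hRR
  apply Subtype.ext
  funext x y
  have h1 := congrFun (congrFun (congrArg Subtype.val hRR) (e x)) (e y)
  simpa using h1

theorem sN_congr {α β : Type} [Finite α] [Finite β] (e : α ≃ β) : sN α = sN β :=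
  le_antisymm (sN_le_of_equiv e) (sN_le_of_equiv e.symm)

/-- the ordinal sum: all elements of `α` are below all elements of `β` -/
def osum {α β : Type} (R : α → α → Prop) (S : β → β → Prop) : α ⊕ β → α ⊕ β → Prop
  | Sum.inl a, Sum.inl a' => R a a'
  | Sum.inl _, Sum.inr _ => True
  | Sum.inr _, Sum.inl _ => False
  | Sum.inr b, Sum.inr b' => S b b'

theorem osum_JSL {α β : Type} {R : α → α → Prop} {S : β → β → Prop} (hR : JSL R) (hS : JSL S) :
    JSL (osum R S) where
  refl x := by
    rcases x with a | b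
    · exact hR.refl a
    · exact hS.refl b
  antisymm x y h1 h2 := by
    rcases x with a | b <;> rcases y with a' | b' <;> simp only [osum] at h1 h2
    · exact congrArg _ (hR.antisymm _ _ h1 h2)
    · exact congrArg _ (hS.antisymm _ _ h1 h2)
  trans x y z h1 h2 := by
    rcases x with a | b <;> rcases y with a' | b' <;> rcases z with a'' | b'' <;>
      simp only [osum] at h1 h2 ⊢
    · exact hR.trans _ _ _ h1 h2
    · exact hS.trans _ _ _ h1 h2
  join x y := by
    rcases x with a | b <;> rcases y with a' | b'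
    · obtain ⟨z, h1, h2, h3⟩ := hR.join a a'
      refine ⟨Sum.inl z, h1, h2, ?_⟩
      intro w hw1 hw2
      rcases w with a'' | b''
      · exact h3 _ hw1 hw2
      · trivial
    · refine ⟨Sum.inr b', trivial, hS.refl _, ?_⟩
      intro w _ hw2
      exact hw2
    · refine ⟨Sum.inr b, hS.refl _, trivial, ?_⟩
      intro w hw1 _
      exact hw1
    · obtain ⟨z, h1, h2, h3⟩ := hS.join b b'
      refine ⟨Sum.inr z, h1, h2, ?_⟩
      intro w hw1 hw2
      rcases w with a'' | b''
      · exact hw1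
      · exact h3 _ hw1 hw2

theorem sN_sum {α β : Type} [Finite α] [Finite β] : sN α * sN β ≤ sN (α ⊕ β) := by
  unfold sN
  rw [← Nat.card_prod]
  refine Nat.card_le_card_of_injective
    (fun p : {R : α → α → Prop // JSL R} × {R : β → β → Prop // JSL R} =>
      (⟨osum p.1.1 p.2.1, osum_JSL p.1.2 p.2.2⟩ : {R : α ⊕ β → α ⊕ β → Prop // JSL R})) ?_
  rintro ⟨⟨R, hR⟩, ⟨S, hS⟩⟩ ⟨⟨R', hR'⟩, ⟨S', hS'⟩⟩ heq
  have h1 := congrArg Subtype.val heq
  simp only at h1
  have hRR : R = R' := by
    funext x y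
    exact congrFun (congrFun h1 (Sum.inl x)) (Sum.inl y)
  have hSS : S = S' := by
    funext x y
    exact congrFun (congrFun h1 (Sum.inr x)) (Sum.inr y)
  subst hRR
  subst hSS
  rfl

theorem sN_split {α : Type} [Finite α] (p : α → Prop) :
    sN {x // p x} * sN {x // ¬ p x} ≤ sN α :=
  sN_sum.trans (sN_le_of_equiv (Equiv.sumCompl p))

theorem sN_pos (α : Type) [Finite α] : 0 < sN α := by
  have := Fintype.ofFinite α
  have e := Fintype.equivFin α
  have h1 : sN (Fin (Fintype.card α)) ≤ sN α := sN_le_of_equiv e.symm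
  refine lt_of_lt_of_le ?_ h1
  unfold sN
  rw [Nat.card_pos_iff]
  refine ⟨⟨⟨fun x y => x ≤ y, ?_⟩⟩, inferInstance⟩
  exact ⟨fun x => le_rfl, fun x y h1 h2 => le_antisymm h1 h2, fun x y z h1 h2 => le_trans h1 h2,
    fun x y => ⟨max x y, le_max_left _ _, le_max_right _ _, fun w h1 h2 => max_le h1 h2⟩⟩

/-- the orders with given `D` and `B` -/
def Fib {α : Type} [Fintype α] (k : ℕ) (D B : Finset α) : Set (α → α → Prop) :=
  {R | JSL R ∧ (∀ x, x ∈ D ↔ k < 2 * dn R x) ∧ ∀ m, m ∈ B ↔ MI R m ∧ dn R m ≤ k}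

theorem res_JSL {α : Type} [Fintype α] {R : α → α → Prop} (h : JSL R) {k : ℕ} {D : Finset α}
    (hD : ∀ x, x ∈ D ↔ k < 2 * dn R x) : JSL (fun x y : {x // x ∈ D} => R x.1 y.1) where
  refl x := h.refl _
  antisymm x y h1 h2 := Subtype.ext (h.antisymm _ _ h1 h2)
  trans x y z h1 h2 := h.trans _ _ _ h1 h2
  join x y := by
    obtain ⟨z, h1, h2, h3⟩ := h.join x.1 y.1
    have hz : z ∈ D := by
      rw [hD]
      have h4 := dn_le h h1
      have h5 := (hD x.1).1 x.2
      omega
    exact ⟨⟨z, hz⟩, h1, h2, fun w hw1 hw2 => h3 _ hw1 hw2⟩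

theorem Fib_card {α : Type} [Fintype α] {k r : ℕ} (hk : k < 2 * Fintype.card α)
    (hr : Fintype.card α * (2 * Fintype.card α - k) ^ r < (2 * Fintype.card α) ^ r)
    (D B : Finset α) :
    (Fib k D B).ncard ≤ sN {x // x ∈ D} *
      ((Fintype.card α ^ r) ^ Nat.card {x // x ∉ D} *
        (2 ^ B.card) ^ Nat.card {x // x ∉ D}) := by
  have hex : ∀ R : Fib k D B, ∀ v : {x // x ∉ D}, ∃ c : Fin r → α,
      (∀ i, R.1 v.1 (c i) ∧ c i ≠ v.1) ∧
        ∀ m, MI R.1 m → R.1 v.1 m → k < dn R.1 m → ∃ i, R.1 (c i) m := by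
    rintro ⟨R, hR1, hR2, hR3⟩ ⟨v, hv⟩
    apply code_exists hR1 hk hr
    rw [hR2] at hv
    show 2 * dn R v ≤ k
    omega
  choose c hc using hex
  rw [← Nat.card_coe_set_eq]
  have h1 : Nat.card (Fib k D B) ≤ Nat.card ({R : {x // x ∈ D} → {x // x ∈ D} → Prop // JSL R} ×
      (({x // x ∉ D} → Fin r → α) × ({x // x ∉ D} → {x // x ∈ B} → Prop))) := by
    refine Nat.card_le_card_of_injective (fun R =>
      (⟨fun x y => R.1 x.1 y.1, res_JSL R.2.1 R.2.2.1⟩, (fun v => c R v),
        fun v m => R.1 v.1 m.1)) ?_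
    intro R R' heq
    simp only [Prod.mk.injEq, Subtype.mk.injEq] at heq
    obtain ⟨h1, h2, h3⟩ := heq
    apply Subtype.ext
    refine code_inj (r := r) R.2.1 R'.2.1 R.2.2.1 R'.2.2.1 R.2.2.2 R'.2.2.2 ?_
      (fun v i => if hv : v ∉ D then c R ⟨v, hv⟩ i else v) ?_ ?_ ?_
    · intro x hx y hy
      exact iff_of_eq (congrFun (congrFun h1 ⟨x, hx⟩) ⟨y, hy⟩)
    · intro v hv
      simp only [hv, not_false_iff, dif_pos]
      exact hc R ⟨v, hv⟩
    · intro v hv
      simp only [hv, not_false_iff, dif_pos]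
      have h4 : c R ⟨v, hv⟩ = c R' ⟨v, hv⟩ := congrFun h2 ⟨v, hv⟩
      rw [h4]
      exact hc R' ⟨v, hv⟩
    · intro v hv m hm
      exact iff_of_eq (congrFun (congrFun h3 ⟨v, hv⟩) ⟨m, hm⟩)
  refine h1.trans (le_of_eq ?_)
  have e2 : Nat.card {x // x ∈ B} = B.card := by
    rw [Nat.card_eq_fintype_card, Fintype.card_coe]
  rw [Nat.card_prod, Nat.card_prod, Nat.card_fun, Nat.card_fun, Nat.card_fun, Nat.card_fun, e2]
  have e3 : Nat.card (Fin r) = r := by rw [Nat.card_eq_fintype_card, Fintype.card_fin]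
  have e4 : Nat.card α = Fintype.card α := Nat.card_eq_fintype_card
  have e5 : Nat.card Prop = 2 := by rw [Nat.card_eq_fintype_card, Fintype.card_prop]
  rw [e3, e4, e5]
  rfl

/-- at least `k / 2 - 1` elements have at most `k / 2` elements below them -/
theorem compl_card {α : Type} [Fintype α] {k : ℕ} (hk : k < 2 * Fintype.card α)
    {D B : Finset α} {R : α → α → Prop} (hR : R ∈ Fib k D B) :
    k < 2 * (Nat.card {x // x ∉ D} + 1) := by
  have e1 : Nat.card {x // x ∉ D} = (Dᶜ).card := by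
    rw [Nat.card_eq_fintype_card, Fintype.card_subtype]
    congr 1
    ext x
    simp
  rw [e1]
  obtain ⟨h, hD, -⟩ := hR
  have hne : Nonempty α := by
    rw [← Fintype.card_pos_iff]
    omega
  obtain ⟨t, ht⟩ := exists_top h
  have htD : t ∈ D := by
    rw [hD]
    have h1 : dn R t = Fintype.card α := by
      unfold dn
      rw [filter_true_of_mem (fun x _ => ht x), card_univ]
    omega
  obtain ⟨x, hx, hmin⟩ := exists_min_image D (dn R) ⟨t, htD⟩
  have h1 : univ.filter (fun z => R z x) ⊆ insert x Dᶜ := by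
    intro z hz
    simp only [mem_filter, mem_univ, true_and] at hz
    by_cases hzx : z = x
    · rw [hzx]
      exact mem_insert_self _ _
    · apply mem_insert_of_mem
      rw [mem_compl]
      intro hzD
      have h2 := hmin z hzD
      have h3 := dn_lt h hz hzx
      omega
  have h2 := card_le_card h1
  have h3 := card_insert_le x Dᶜ
  have h4 : (univ.filter (fun z => R z x)).card = dn R x := rfl
  have h5 := (hD x).1 hx
  omega

end Pool.Agent.N363.SL
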