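import Pool.Agent.N363.SL.Lower

/-!
# Almost all join-semilattice orders have many meet irreducible elements with few elements below
-/

set_option autoImplicit false

namespace Pool.Agent.N363.SL

open Finset
open scoped Classical

/-- the numerical facts about `n`, `k` and `r` -/
theorem numerics {n k : ℕ} (hn : 2 ≤ n) (hkn : k ≤ n)
    (hk : 5000000 * (n : ℝ) ^ 2 * Real.log n ^ 4 ≤ (k : ℝ) ^ 3) :
    100 ≤ k ∧ 960 * (n : ℝ) ≤ k * √k ∧
    ∃ r : ℕ, n * (2 * n - k) ^ r < (2 * n) ^ r ∧ (r : ℝ) * Real.logb 2 n ≤ √k / 400 := by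
  have hn' : (2 : ℝ) ≤ n := by exact_mod_cast hn
  have hlog2 : (0.69 : ℝ) < Real.log 2 := by linarith [Real.log_two_gt_d9]
  have hlog : (0.69 : ℝ) < Real.log n :=
    lt_of_lt_of_le hlog2 (Real.log_le_log (by norm_num) hn')
  obtain ⟨l, hl⟩ : ∃ l, l = Real.log n := ⟨_, rfl⟩
  rw [← hl] at hk hlog
  have hk0 : (0 : ℝ) ≤ k := by positivity
  have hl2 : (0.4761 : ℝ) ≤ l ^ 2 := by nlinarith
  have hsq : (2236 * (n : ℝ) * l ^ 2) ^ 2 ≤ (k * √k) ^ 2 := by
    rw [mul_pow (k : ℝ), Real.sq_sqrt hk0]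
    calc (2236 * (n : ℝ) * l ^ 2) ^ 2 = 4999696 * ((n : ℝ) ^ 2 * l ^ 4) := by ring
      _ ≤ 5000000 * ((n : ℝ) ^ 2 * l ^ 4) :=
        mul_le_mul_of_nonneg_right (by norm_num) (by positivity)
      _ = 5000000 * (n : ℝ) ^ 2 * l ^ 4 := by ring
      _ ≤ (k : ℝ) ^ 3 := hk
      _ = (k : ℝ) ^ 2 * k := by ring
  have h1 : 2236 * (n : ℝ) * l ^ 2 ≤ k * √k :=
    le_of_sq_le_sq hsq (by positivity)
  have hkbig : (100 : ℝ) ≤ k := by
    by_contra hcon
    push Not at hcon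
    have h2 : √(k : ℝ) ≤ 10 := by
      rw [Real.sqrt_le_left (by norm_num)]
      linarith
    have h3 : (k : ℝ) * √k ≤ 100 * 10 :=
      mul_le_mul hcon.le h2 (Real.sqrt_nonneg _) (by norm_num)
    nlinarith
  have hkpos : (0 : ℝ) < k := by linarith
  refine ⟨by exact_mod_cast hkbig, ?_, ?_⟩
  · nlinarith
  obtain ⟨r, hr⟩ : ∃ r : ℕ, r = ⌊2 * (n : ℝ) / k * l⌋₊ + 1 := ⟨_, rfl⟩
  refine ⟨r, ?_, ?_⟩
  · have hr1 : 2 * (n : ℝ) / k * l < r := by
      rw [hr]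
      push_cast
      exact Nat.lt_floor_add_one _
    have hnpos : (0 : ℝ) < n := by linarith
    have h2 : l < r * (k / (2 * n)) := by
      have h3 := mul_lt_mul_of_pos_right hr1 (show (0 : ℝ) < k / (2 * n) by positivity)
      have h4 : 2 * (n : ℝ) / k * l * (k / (2 * n)) = l := by field_simp
      linarith
    have h3 : (1 - (k : ℝ) / (2 * n)) ^ r ≤ Real.exp (-(r * (k / (2 * n)))) := by
      have h4 : 1 - (k : ℝ) / (2 * n) ≤ Real.exp (-(k / (2 * n))) := by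
        have := Real.add_one_le_exp (-((k : ℝ) / (2 * n)))
        linarith
      have h5 : (0 : ℝ) ≤ 1 - (k : ℝ) / (2 * n) := by
        have h6 : (k : ℝ) / (2 * n) ≤ 1 := by
          rw [div_le_one (by positivity)]
          have : (k : ℝ) ≤ n := by exact_mod_cast hkn
          linarith
        linarith
      calc (1 - (k : ℝ) / (2 * n)) ^ r ≤ Real.exp (-(k / (2 * n))) ^ r := pow_le_pow_left₀ h5 h4 r
        _ = Real.exp (-(r * (k / (2 * n)))) := by
          rw [← Real.exp_nat_mul]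
          congr 1
          ring
    have h4 : Real.exp (-(r * (k / (2 * n)))) < 1 / n := by
      have h5 : Real.exp (-(r * ((k : ℝ) / (2 * n)))) < Real.exp (-l) :=
        Real.exp_lt_exp.2 (by linarith)
      have h6 : Real.exp (-l) = 1 / n := by
        rw [Real.exp_neg, hl, Real.exp_log hnpos, one_div]
      rw [← h6]
      exact h5
    have h5 : (n : ℝ) * (1 - (k : ℝ) / (2 * n)) ^ r < 1 := by
      have h6 := lt_of_le_of_lt h3 h4
      have h7 := mul_lt_mul_of_pos_left h6 hnpos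
      rwa [mul_one_div_cancel hnpos.ne'] at h7
    have h6 : (n : ℝ) * (2 * n - k) ^ r < (2 * n) ^ r := by
      have h7 : (2 * (n : ℝ) - k) = (2 * n) * (1 - (k : ℝ) / (2 * n)) := by field_simp
      rw [h7, mul_pow]
      have h8 : (0 : ℝ) < (2 * n) ^ r := by positivity
      calc (n : ℝ) * ((2 * n) ^ r * (1 - (k : ℝ) / (2 * n)) ^ r) =
          (2 * n) ^ r * (n * (1 - (k : ℝ) / (2 * n)) ^ r) := by ring
        _ < (2 * n) ^ r * 1 := mul_lt_mul_of_pos_left h5 h8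
        _ = (2 * n) ^ r := mul_one _
    have h7 : ((2 * n - k : ℕ) : ℝ) = 2 * (n : ℝ) - k := by
      rw [Nat.cast_sub (by omega)]
      push_cast
      ring
    have h8 : ((n * (2 * n - k) ^ r : ℕ) : ℝ) < (((2 * n) ^ r : ℕ) : ℝ) := by
      push_cast
      rw [h7]
      exact h6
    exact_mod_cast h8
  · have hr2 : (r : ℝ) ≤ 2 * (n : ℝ) / k * l + 1 := by
      rw [hr]
      push_cast
      have := Nat.floor_le (show (0 : ℝ) ≤ 2 * (n : ℝ) / k * l by positivity)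
      linarith
    have h2 : (1 : ℝ) ≤ n / k := by
      rw [le_div_iff₀ hkpos, one_mul]
      exact_mod_cast hkn
    have h3 : (r : ℝ) ≤ n / k * (3.5 * l) := by
      have h4 : (1 : ℝ) ≤ n / k * (1.5 * l) := by nlinarith
      have h5 : 2 * (n : ℝ) / k * l = n / k * (2 * l) := by ring
      rw [h5] at hr2
      nlinarith
    have h4 : Real.logb 2 n ≤ 1.45 * l := by
      unfold Real.logb
      rw [← hl, div_le_iff₀ (by linarith)]
      nlinarith
    have h5 : (r : ℝ) * Real.logb 2 n ≤ n / k * (3.5 * l) * (1.45 * l) := by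
      apply mul_le_mul h3 h4 _ (by positivity)
      exact Real.logb_nonneg (by norm_num) (by linarith)
    have h6 : (n : ℝ) / k * (3.5 * l) * (1.45 * l) = 5.075 * (n * l ^ 2) / k := by ring
    rw [h6] at h5
    refine h5.trans ?_
    rw [div_le_iff₀ hkpos]
    have h7 : √(k : ℝ) / 400 * k = k * √k / 400 := by ring
    rw [h7]
    nlinarith

/-- a single fibre -/
theorem fib_bound {n k b r : ℕ} (hn : 2 ≤ n) (hkn : k ≤ n) (hk100 : 100 ≤ k)
    (hr1 : n * (2 * n - k) ^ r < (2 * n) ^ r) (hr2 : (r : ℝ) * Real.logb 2 n ≤ √k / 400)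
    (hb : (b : ℝ) ≤ √k / 400) (D B : Finset (Fin n)) (hB : B.card ≤ b) :
    ((Fib k D B).ncard : ℝ) ≤ (2 : ℝ) ^ (-((k : ℝ) * √k / 256)) * sN (Fin n) := by
  rcases Set.eq_empty_or_nonempty (Fib k D B) with hemp | ⟨R, hR⟩
  · rw [hemp, Set.ncard_empty]
    simp only [Nat.cast_zero]
    positivity
  have hk2 : k < 2 * Fintype.card (Fin n) := by rw [Fintype.card_fin]; omega
  have ht := compl_card hk2 hR
  obtain ⟨t, ht'⟩ : ∃ t, t = Nat.card {x // x ∉ D} := ⟨_, rfl⟩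
  rw [← ht'] at ht
  have h1 := Fib_card (r := r) hk2 (by rw [Fintype.card_fin]; exact hr1) D B
  rw [← ht', Fintype.card_fin] at h1
  have h2 : sN {x // x ∈ D} * sN {x // ¬ x ∈ D} ≤ sN (Fin n) := sN_split (fun x => x ∈ D)
  have hct : Fintype.card {x // ¬ x ∈ D} = t := by
    rw [ht', Nat.card_eq_fintype_card]
  have h3 : (2 : ℝ) ^ ((t : ℝ) * √t / 24) ≤ sN {x // ¬ x ∈ D} := by
    have := sN_lower (α := {x // ¬ x ∈ D}) (by rw [hct]; omega)
    rwa [hct] at this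
  obtain ⟨a, ha⟩ : ∃ a : ℝ, a = (sN {x // x ∈ D} : ℝ) := ⟨_, rfl⟩
  have ha0 : 0 ≤ a := by rw [ha]; positivity
  have h4 : a * (2 : ℝ) ^ ((t : ℝ) * √t / 24) ≤ sN (Fin n) := by
    calc a * (2 : ℝ) ^ ((t : ℝ) * √t / 24) ≤ a * (sN {x // ¬ x ∈ D} : ℝ) :=
          mul_le_mul_of_nonneg_left h3 ha0
      _ = ((sN {x // x ∈ D} * sN {x // ¬ x ∈ D} : ℕ) : ℝ) := by rw [ha]; push_cast; ring
      _ ≤ sN (Fin n) := by exact_mod_cast h2
  have hnpos : (0 : ℝ) < n := by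
    have : 0 < n := by omega
    exact_mod_cast this
  -- the number of codes
  have h5 : (((n ^ r) ^ t * (2 ^ B.card) ^ t : ℕ) : ℝ) ≤
      (2 : ℝ) ^ ((t : ℝ) * (√k / 400 + √k / 400)) := by
    have e1 : (n : ℝ) = (2 : ℝ) ^ (Real.logb 2 n) :=
      (Real.rpow_logb (by norm_num) (by norm_num) hnpos).symm
    have h6 : (((n ^ r) ^ t : ℕ) : ℝ) ≤ (2 : ℝ) ^ ((t : ℝ) * (√k / 400)) := by
      push_cast
      rw [← pow_mul]
      calc (n : ℝ) ^ (r * t) = ((2 : ℝ) ^ (Real.logb 2 n)) ^ (r * t) := by rw [← e1]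
        _ = (2 : ℝ) ^ (Real.logb 2 n * ((r * t : ℕ) : ℝ)) := by
          rw [← Real.rpow_natCast, ← Real.rpow_mul (by norm_num)]
        _ ≤ (2 : ℝ) ^ ((t : ℝ) * (√k / 400)) := by
          apply Real.rpow_le_rpow_of_exponent_le (by norm_num)
          push_cast
          have h7 : Real.logb 2 (n : ℝ) * (r * t) = t * (r * Real.logb 2 n) := by ring
          rw [h7]
          exact mul_le_mul_of_nonneg_left hr2 (by positivity)
    have h7 : (((2 ^ B.card) ^ t : ℕ) : ℝ) ≤ (2 : ℝ) ^ ((t : ℝ) * (√k / 400)) := by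
      push_cast
      rw [← pow_mul]
      calc (2 : ℝ) ^ (B.card * t) = (2 : ℝ) ^ (((B.card * t : ℕ) : ℝ)) :=
            (Real.rpow_natCast _ _).symm
        _ ≤ (2 : ℝ) ^ ((t : ℝ) * (√k / 400)) := by
          apply Real.rpow_le_rpow_of_exponent_le (by norm_num)
          push_cast
          have h8 : (B.card : ℝ) ≤ b := by exact_mod_cast hB
          rw [mul_comm]
          exact mul_le_mul_of_nonneg_left (h8.trans hb) (by positivity)
    push_cast at h6 h7 ⊢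
    rw [mul_add, Real.rpow_add (by norm_num)]
    exact mul_le_mul h6 h7 (by positivity) (by positivity)
  have h6 : ((Fib k D B).ncard : ℝ) ≤ a * (2 : ℝ) ^ ((t : ℝ) * (√k / 400 + √k / 400)) := by
    calc ((Fib k D B).ncard : ℝ) ≤
        ((sN {x // x ∈ D} * ((n ^ r) ^ t * (2 ^ B.card) ^ t) : ℕ) : ℝ) := by exact_mod_cast h1
      _ = a * (((n ^ r) ^ t * (2 ^ B.card) ^ t : ℕ) : ℝ) := by rw [ha]; push_cast; ring
      _ ≤ _ := mul_le_mul_of_nonneg_left h5 ha0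
  have ht4 : (k : ℝ) / 4 ≤ t := by
    have h7 : (k : ℝ) < 2 * (t + 1) := by exact_mod_cast ht
    have h8 : (100 : ℝ) ≤ k := by exact_mod_cast hk100
    linarith
  have hsqrt : √(k : ℝ) / 2 ≤ √t := by
    have h7 : √((k : ℝ) / 4) ≤ √t := Real.sqrt_le_sqrt ht4
    have h8 : √((k : ℝ) / 4) = √k / 2 := by
      rw [Real.sqrt_div (by positivity)]
      congr 1
      rw [show (4 : ℝ) = 2 ^ 2 by norm_num]
      exact Real.sqrt_sq (by norm_num)
    rwa [h8] at h7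
  have h7 : (t : ℝ) * (√k / 400 + √k / 400) ≤ -((k : ℝ) * √k / 256) + (t : ℝ) * √t / 24 := by
    have hk0 : (0 : ℝ) ≤ √k := Real.sqrt_nonneg _
    have ht0 : (0 : ℝ) ≤ t := by positivity
    have h8 : (t : ℝ) * (√k / 2) ≤ t * √t := mul_le_mul_of_nonneg_left hsqrt ht0
    have h9 : (k : ℝ) / 4 * √k ≤ t * √k := mul_le_mul_of_nonneg_right ht4 hk0
    nlinarith
  calc ((Fib k D B).ncard : ℝ) ≤ a * (2 : ℝ) ^ ((t : ℝ) * (√k / 400 + √k / 400)) := h6
    _ ≤ a * (2 : ℝ) ^ (-((k : ℝ) * √k / 256) + (t : ℝ) * √t / 24) :=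
      mul_le_mul_of_nonneg_left (Real.rpow_le_rpow_of_exponent_le (by norm_num) h7) ha0
    _ = (2 : ℝ) ^ (-((k : ℝ) * √k / 256)) * (a * (2 : ℝ) ^ ((t : ℝ) * √t / 24)) := by
      rw [Real.rpow_add (by norm_num)]
      ring
    _ ≤ _ := mul_le_mul_of_nonneg_left h4 (by positivity)

theorem V_card {n k b : ℕ} (hn : 2 ≤ n) (hkn : k ≤ n)
    (hk : 5000000 * (n : ℝ) ^ 2 * Real.log n ^ 4 ≤ (k : ℝ) ^ 3) (hb : (b : ℝ) ≤ √k / 400) :
    ({R : Fin n → Fin n → Prop |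
        JSL R ∧ (univ.filter (fun m => MI R m ∧ dn R m ≤ k)).card ≤ b}.ncard : ℝ) ≤
      (2 : ℝ) ^ (-((k : ℝ) * √k / 600)) * sN (Fin n) := by
  obtain ⟨hk100, hnk, r, hr1, hr2⟩ := numerics hn hkn hk
  obtain ⟨P, hP⟩ : ∃ P : Finset (Finset (Fin n) × Finset (Fin n)),
      P = univ.filter (fun p => p.2.card ≤ b) := ⟨_, rfl⟩
  have hsub : {R : Fin n → Fin n → Prop |
        JSL R ∧ (univ.filter (fun m => MI R m ∧ dn R m ≤ k)).card ≤ b} ⊆
      ⋃ p ∈ P, Fib k p.1 p.2 := by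
    rintro R ⟨hR, hRb⟩
    simp only [Set.mem_iUnion]
    refine ⟨(univ.filter (fun x => k < 2 * dn R x), univ.filter (fun m => MI R m ∧ dn R m ≤ k)),
      ?_, hR, ?_, ?_⟩
    · rw [hP]
      simpa using hRb
    · intro x
      simp
    · intro m
      simp
  have h1 := (Set.ncard_le_ncard hsub (Set.toFinite _)).trans
    (Finset.set_ncard_biUnion_le P (fun p => Fib k p.1 p.2))
  have h2 : (∑ p ∈ P, ((Fib k p.1 p.2).ncard : ℝ)) ≤
      P.card • ((2 : ℝ) ^ (-((k : ℝ) * √k / 256)) * sN (Fin n)) := by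
    apply sum_le_card_nsmul
    intro p hp
    rw [hP] at hp
    simp only [mem_filter, mem_univ, true_and] at hp
    exact fib_bound hn hkn hk100 hr1 hr2 hb p.1 p.2 hp
  have h3 : (P.card : ℝ) ≤ (2 : ℝ) ^ (2 * (n : ℝ)) := by
    have h4 : P.card ≤ 2 ^ n * 2 ^ n := by
      calc P.card ≤ Fintype.card (Finset (Fin n) × Finset (Fin n)) := card_le_univ _
        _ = 2 ^ n * 2 ^ n := by
          rw [Fintype.card_prod, Fintype.card_finset, Fintype.card_fin]
    have h5 : (2 : ℝ) ^ (2 * (n : ℝ)) = ((2 ^ n * 2 ^ n : ℕ) : ℝ) := by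
      push_cast
      rw [two_mul, Real.rpow_add (by norm_num), Real.rpow_natCast]
    rw [h5]
    exact_mod_cast h4
  have hs0 : (0 : ℝ) ≤ sN (Fin n) := by positivity
  calc ({R : Fin n → Fin n → Prop |
        JSL R ∧ (univ.filter (fun m => MI R m ∧ dn R m ≤ k)).card ≤ b}.ncard : ℝ) ≤
        ((∑ p ∈ P, (Fib k p.1 p.2).ncard : ℕ) : ℝ) := by exact_mod_cast h1
    _ = ∑ p ∈ P, ((Fib k p.1 p.2).ncard : ℝ) := by push_cast; rfl
    _ ≤ P.card • ((2 : ℝ) ^ (-((k : ℝ) * √k / 256)) * sN (Fin n)) := h2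
    _ = (P.card : ℝ) * ((2 : ℝ) ^ (-((k : ℝ) * √k / 256)) * sN (Fin n)) := nsmul_eq_mul _ _
    _ ≤ (2 : ℝ) ^ (2 * (n : ℝ)) * ((2 : ℝ) ^ (-((k : ℝ) * √k / 256)) * sN (Fin n)) :=
      mul_le_mul_of_nonneg_right h3 (by positivity)
    _ = (2 : ℝ) ^ (2 * (n : ℝ) + -((k : ℝ) * √k / 256)) * sN (Fin n) := by
      rw [Real.rpow_add (by norm_num)]
      ring
    _ ≤ (2 : ℝ) ^ (-((k : ℝ) * √k / 600)) * sN (Fin n) := by
      apply mul_le_mul_of_nonneg_right _ hs0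
      apply Real.rpow_le_rpow_of_exponent_le (by norm_num)
      have h6 : (0 : ℝ) ≤ k * √k := by positivity
      linarith

end Pool.Agent.N363.SL
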