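import Pool.Agent.N363.SL.Count

/-!
# Union-closed families and their inclusion orders
-/

set_option autoImplicit false

namespace Pool.Agent.N363.SL

open Finset
open scoped Classical

/-- `A` lists the members of a union-closed family with inclusion order `R` -/
structure Lst {n : ℕ} {β : Type} (A : Fin n → Finset β) (R : Fin n → Fin n → Prop) : Prop where
  incl : ∀ x y, R x y ↔ A x ⊆ A y
  inj : Function.Injective A
  union : ∀ x y, ∃ z, A z = A x ∪ A y

section

variable {n : ℕ} {β : Type} {A : Fin n → Finset β} {R : Fin n → Fin n → Prop}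

theorem Lst.JSL (h : Lst A R) : JSL R where
  refl x := (h.incl x x).2 (Subset.refl _)
  antisymm x y h1 h2 := h.inj (Subset.antisymm ((h.incl _ _).1 h1) ((h.incl _ _).1 h2))
  trans x y z h1 h2 := (h.incl _ _).2 (((h.incl _ _).1 h1).trans ((h.incl _ _).1 h2))
  join x y := by
    obtain ⟨z, hz⟩ := h.union x y
    refine ⟨z, (h.incl _ _).2 ?_, (h.incl _ _).2 ?_, ?_⟩
    · rw [hz]; exact subset_union_left
    · rw [hz]; exact subset_union_right
    · intro w hw1 hw2
      rw [h.incl, hz]
      exact union_subset ((h.incl _ _).1 hw1) ((h.incl _ _).1 hw2)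

/-- the element which belongs to a meet irreducible member -/
theorem Lst.pattern (h : Lst A R) {m : Fin n} (hm : MI R m) : ∃ i : β, ∀ x, i ∉ A x ↔ R x m := by
  obtain ⟨p, hp1, hp2, hp3⟩ := hm
  have hpm : ¬ A p ⊆ A m := by
    intro hsub
    exact hp2 (h.JSL.antisymm _ _ ((h.incl _ _).2 hsub) hp1)
  obtain ⟨i, hi1, hi2⟩ := not_subset.1 hpm
  refine ⟨i, fun x => ⟨fun hx => ?_, fun hx hix => hi2 ((h.incl _ _).1 hx hix)⟩⟩
  obtain ⟨z, hz⟩ := h.union x m
  have hiz : i ∉ A z := by
    rw [hz, mem_union]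
    tauto
  have hmz : R m z := by
    rw [h.incl, hz]
    exact subset_union_right
  have hzm : z = m := by
    by_contra hne
    exact hiz ((h.incl _ _).1 (hp3 z hmz hne) hi1)
  rw [h.incl, ← hzm, hz]
  exact subset_union_left

/-- the elements outside some member: the largest member avoiding it -/
theorem Lst.largest (h : Lst A R) {i : β} (hi : ∃ x, i ∉ A x) :
    ∃ z, ∀ x, i ∉ A x ↔ R x z := by
  obtain ⟨x0, hx0⟩ := hi
  obtain ⟨z, hz, hmax⟩ := exists_max_image (univ.filter (fun x => i ∉ A x)) (dn R)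
    ⟨x0, by simp [hx0]⟩
  simp only [mem_filter, mem_univ, true_and] at hz hmax
  refine ⟨z, fun x => ⟨fun hx => ?_, fun hx hix => hz ((h.incl _ _).1 hx hix)⟩⟩
  obtain ⟨w, hw⟩ := h.union x z
  have hiw : i ∉ A w := by
    rw [hw, mem_union]
    tauto
  have hzw : R z w := by
    rw [h.incl, hw]
    exact subset_union_right
  have hwz : w = z := by
    by_contra hne
    have h1 := hmax w hiw
    have h2 := dn_lt h.JSL hzw (Ne.symm hne)
    omega
  rw [h.incl, ← hwz, hw]
  exact subset_union_left

end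

/-- there are `s` elements, no two of them in the same members of `F`, each in all but at most `k`
members of `F` -/
def Abundant {β : Type} [DecidableEq β] (F : Finset (Finset β)) (k : ℕ) (s : ℝ) : Prop :=
  ∃ I : Finset β, s ≤ I.card ∧ (∀ i ∈ I, F.card ≤ (F.filter (fun X => i ∈ X)).card + k) ∧
    ∀ i ∈ I, ∀ j ∈ I, (∀ X ∈ F, i ∈ X ↔ j ∈ X) → i = j

/-- the orders with few meet irreducible elements having few elements below -/
def V (n k b : ℕ) : Set (Fin n → Fin n → Prop) :=
  {R | JSL R ∧ (univ.filter (fun m => MI R m ∧ dn R m ≤ k)).card ≤ b}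

theorem mem_V {n k : ℕ} {β : Type} [DecidableEq β] {F : Finset (Finset β)} (e : Fin n ≃ F)
    {R : Fin n → Fin n → Prop} (h : Lst (fun x => (e x : Finset β)) R)
    (hF : ¬ Abundant F k (√k / 400)) : R ∈ V n k ⌊√(k : ℝ) / 400⌋₊ := by
  refine ⟨h.JSL, ?_⟩
  by_contra hcon
  push Not at hcon
  apply hF
  have hcard : F.card = n := by
    have := Fintype.card_congr e
    rw [Fintype.card_fin, Fintype.card_coe] at this
    exact this.symm
  obtain ⟨B, hB⟩ : ∃ B, B = univ.filter (fun m => MI R m ∧ dn R m ≤ k) := ⟨_, rfl⟩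
  rw [← hB] at hcon
  have hex : ∀ m : Fin n, m ∈ B → ∃ i : β, ∀ x, i ∉ (e x : Finset β) ↔ R x m := by
    intro m hm
    rw [hB] at hm
    simp only [mem_filter, mem_univ, true_and] at hm
    exact h.pattern hm.1
  choose i hi using hex
  have hinj : Set.InjOn (fun m : {m // m ∈ B} => i m.1 m.2) (B.attach : Set {m // m ∈ B}) := by
    intro m _ m' _ heq
    simp only at heq
    apply Subtype.ext
    apply h.JSL.antisymm
    · rw [← hi m'.1 m'.2, ← heq, hi m.1 m.2]
      exact h.JSL.refl _
    · rw [← hi m.1 m.2, heq, hi m'.1 m'.2]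
      exact h.JSL.refl _
  refine ⟨B.attach.image (fun m => i m.1 m.2), ?_, ?_, ?_⟩
  · rw [card_image_of_injOn hinj, card_attach]
    have h1 : √(k : ℝ) / 400 < (⌊√(k : ℝ) / 400⌋₊ : ℝ) + 1 := Nat.lt_floor_add_one _
    have h2 : ((⌊√(k : ℝ) / 400⌋₊ : ℝ) + 1) ≤ B.card := by exact_mod_cast hcon
    linarith
  · intro j hj
    rw [mem_image] at hj
    obtain ⟨m, -, rfl⟩ := hj
    have hmk : dn R m.1 ≤ k := by
      have h0 : ∀ z ∈ B, dn R z ≤ k := by
        intro z hz
        rw [hB] at hz
        simp only [mem_filter, mem_univ, true_and] at hz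
        exact hz.2
      exact h0 m.1 m.2
    have h1 := card_filter_add_card_filter_not (s := F) (fun X => i m.1 m.2 ∈ X)
    have h2 : (F.filter (fun X => i m.1 m.2 ∉ X)).card ≤ dn R m.1 := by
      unfold dn
      refine card_le_card_of_surjOn (fun x => (e x : Finset β)) ?_
      intro X hX
      simp only [coe_filter, Set.mem_ofPred_eq] at hX
      refine ⟨e.symm ⟨X, hX.1⟩, ?_, by simp⟩
      simp only [coe_filter, mem_univ, true_and, Set.mem_ofPred_eq]
      rw [← hi m.1 m.2]
      simpa using hX.2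
    omega
  · intro j hj j' hj' hjj
    rw [mem_image] at hj hj'
    obtain ⟨m, -, rfl⟩ := hj
    obtain ⟨m', -, rfl⟩ := hj'
    have hmm : m = m' := by
      apply Subtype.ext
      apply h.JSL.antisymm
      · rw [← hi m'.1 m'.2, ← hjj _ (e m.1).2, hi m.1 m.2]
        exact h.JSL.refl _
      · rw [← hi m.1 m.2, hjj _ (e m'.1).2, hi m'.1 m'.2]
        exact h.JSL.refl _
    rw [hmm]

/-! ### Listings -/

/-- the injective listings of union-closed families -/
def Lall (n : ℕ) (β : Type) : Set (Fin n → Finset β) :=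
  {A | Function.Injective A ∧ ∀ x y, ∃ z, A z = A x ∪ A y}

theorem Lall_iff {n : ℕ} {β : Type} (A : Fin n → Finset β) :
    A ∈ Lall n β ↔ Lst A (fun x y => A x ⊆ A y) :=
  ⟨fun h => ⟨fun _ _ => Iff.rfl, h.1, h.2⟩, fun h => ⟨h.inj, h.union⟩⟩

/-- upper bound for the listings with inclusion order in a set of orders -/
theorem Lall_upper {n : ℕ} {β : Type} [Fintype β] (W : Set (Fin n → Fin n → Prop)) :
    ({A | A ∈ Lall n β ∧ (fun x y => A x ⊆ A y) ∈ W} : Set (Fin n → Finset β)).ncard ≤
      W.ncard * (n + 1) ^ Fintype.card β := by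
  have e1 : W.ncard * (n + 1) ^ Fintype.card β = Nat.card (W × (β → Option (Fin n))) := by
    rw [Nat.card_prod, Nat.card_coe_set_eq, Nat.card_fun, Nat.card_eq_fintype_card,
      Nat.card_eq_fintype_card, Fintype.card_option, Fintype.card_fin]
  rw [e1, ← Nat.card_coe_set_eq]
  have hex : ∀ A : {A // A ∈ ({A | A ∈ Lall n β ∧ (fun x y => A x ⊆ A y) ∈ W} :
      Set (Fin n → Finset β))}, ∀ i : β, ∃ g : Option (Fin n),
      ∀ x, i ∉ A.1 x ↔ ∃ z, g = some z ∧ A.1 x ⊆ A.1 z := by
    rintro ⟨A, hA, hAW⟩ i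
    by_cases hi : ∃ x, i ∉ A x
    · obtain ⟨z, hz⟩ := ((Lall_iff A).1 hA).largest hi
      refine ⟨some z, fun x => ?_⟩
      rw [hz x]
      constructor
      · intro h
        exact ⟨z, rfl, h⟩
      · rintro ⟨z', h1, h2⟩
        rw [Option.some.injEq] at h1
        rw [h1]
        exact h2
    · push Not at hi
      refine ⟨none, fun x => ?_⟩
      constructor
      · intro h
        exact absurd (hi x) h
      · rintro ⟨z, h, -⟩
        exact absurd h (by simp)
  choose g hg using hex
  refine Nat.card_le_card_of_injective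
    (fun A => ((⟨fun x y => A.1 x ⊆ A.1 y, A.2.2⟩ : W), g A)) ?_
  intro A A' heq
  rw [Prod.mk.injEq, Subtype.mk.injEq] at heq
  obtain ⟨h1, h2⟩ := heq
  apply Subtype.ext
  funext x
  ext i
  rw [← not_iff_not, hg A i x, hg A' i x, h2]
  constructor
  · rintro ⟨z, h3, h4⟩
    exact ⟨z, h3, (congrFun (congrFun h1 x) z).mp h4⟩
  · rintro ⟨z, h3, h4⟩
    exact ⟨z, h3, (congrFun (congrFun h1 x) z).mpr h4⟩

/-- the listing with given order and given largest members avoiding the elements -/
noncomputable def mkA {n : ℕ} {β : Type} [Fintype β] (R : Fin n → Fin n → Prop) (h : β → Option (Fin n))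
    (x : Fin n) : Finset β :=
  univ.filter (fun i => ∀ z, h i = some z → ¬ R x z)

theorem mem_mkA {n : ℕ} {β : Type} [Fintype β] (R : Fin n → Fin n → Prop) (h : β → Option (Fin n))
    (x : Fin n) (i : β) : i ∈ mkA R h x ↔ ∀ z, h i = some z → ¬ R x z := by
  simp [mkA]

theorem mkA_Lst {n : ℕ} {β : Type} [Fintype β] {R : Fin n → Fin n → Prop} (hR : JSL R)
    (h : β → Option (Fin n)) (hsurj : ∀ z, ∃ i, h i = some z) : Lst (mkA R h) R := by
  have hincl : ∀ x y, R x y ↔ mkA R h x ⊆ mkA R h y := by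
    intro x y
    constructor
    · intro hxy i hi
      rw [mem_mkA] at hi ⊢
      intro z hz hyz
      exact hi z hz (hR.trans _ _ _ hxy hyz)
    · intro hsub
      obtain ⟨i, hi⟩ := hsurj y
      by_contra hxy
      have h1 : i ∈ mkA R h x := by
        rw [mem_mkA]
        intro z hz
        rw [hi, Option.some.injEq] at hz
        rw [← hz]
        exact hxy
      have h2 := hsub h1
      rw [mem_mkA] at h2
      exact h2 y hi (hR.refl y)
  refine ⟨hincl, ?_, ?_⟩
  · intro x y hxy
    apply hR.antisymm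
    · rw [hincl, hxy]
    · rw [hincl, hxy]
  · intro x y
    obtain ⟨z, hz1, hz2, hz3⟩ := hR.join x y
    refine ⟨z, ?_⟩
    ext i
    rw [mem_union, mem_mkA, mem_mkA, mem_mkA]
    rcases hi : h i with _ | w
    · simp
    · simp only [Option.some.injEq, forall_eq']
      constructor
      · intro h1
        by_contra hcon
        push Not at hcon
        exact h1 (hz3 w hcon.1 hcon.2)
      · rintro (h1 | h1) h2
        · exact h1 (hR.trans _ _ _ hz1 h2)
        · exact h1 (hR.trans _ _ _ hz2 h2)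

/-- lower bound for the listings -/
theorem Lall_lower (n d : ℕ) :
    sN (Fin n) * (n + 1) ^ d ≤ (Lall n (Fin n ⊕ Fin d)).ncard := by
  have e1 : sN (Fin n) * (n + 1) ^ d =
      Nat.card ({R : Fin n → Fin n → Prop // JSL R} × (Fin d → Option (Fin n))) := by
    rw [Nat.card_prod, Nat.card_fun]
    unfold sN
    rw [Nat.card_eq_fintype_card (α := Option (Fin n)), Nat.card_eq_fintype_card (α := Fin d),
      Fintype.card_option, Fintype.card_fin, Fintype.card_fin]
  rw [e1, ← Nat.card_coe_set_eq]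
  have hsurj : ∀ (g : Fin d → Option (Fin n)) (z : Fin n), ∃ i : Fin n ⊕ Fin d,
      (Sum.elim some g) i = some z := fun g z => ⟨Sum.inl z, rfl⟩
  refine Nat.card_le_card_of_injective (fun p =>
    (⟨mkA p.1.1 (Sum.elim some p.2), (mkA_Lst p.1.2 _ (hsurj p.2)).inj,
      (mkA_Lst p.1.2 _ (hsurj p.2)).union⟩ : Lall n (Fin n ⊕ Fin d))) ?_
  rintro ⟨⟨R, hR⟩, g⟩ ⟨⟨R', hR'⟩, g'⟩ heq
  replace heq : mkA R (Sum.elim some g) = mkA R' (Sum.elim some g') := congrArg Subtype.val heq
  have hA := mkA_Lst hR _ (hsurj g)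
  have hA' := mkA_Lst hR' _ (hsurj g')
  have hRR : R = R' := by
    funext x y
    apply propext
    rw [hA.incl, hA'.incl, heq]
  subst hRR
  have hgg : g = g' := by
    funext j
    have key : ∀ x, (∀ z, g j = some z → ¬ R x z) ↔ ∀ z, g' j = some z → ¬ R x z := by
      intro x
      have h1 := mem_mkA R (Sum.elim some g) x (Sum.inr j)
      have h2 := mem_mkA R (Sum.elim some g') x (Sum.inr j)
      simp only [Sum.elim_inr] at h1 h2
      rw [← h1, ← h2, heq]
    rcases hg : g j with _ | z <;> rcases hg' : g' j with _ | z'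
    · rfl
    · exfalso
      have h1 := key z'
      rw [hg, hg'] at h1
      simp only [reduceCtorEq, false_imp_iff, implies_true, Option.some.injEq, forall_eq',
        true_iff] at h1
      exact h1 (hR.refl _)
    · exfalso
      have h1 := key z
      rw [hg, hg'] at h1
      simp only [reduceCtorEq, false_imp_iff, implies_true, Option.some.injEq, forall_eq',
        iff_true] at h1
      exact h1 (hR.refl _)
    · have h1 := key z
      have h2 := key z'
      rw [hg, hg'] at h1 h2
      simp only [Option.some.injEq, forall_eq'] at h1 h2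
      rw [not_iff_not] at h1 h2
      rw [hR.antisymm z z' (h1.1 (hR.refl _)) (h2.2 (hR.refl _))]
  rw [hgg]

theorem Lall_equiv {n : ℕ} {β γ : Type} [Fintype β] [Fintype γ] (e : β ≃ γ) :
    (Lall n β).ncard ≤ (Lall n γ).ncard := by
  rw [← Nat.card_coe_set_eq, ← Nat.card_coe_set_eq]
  refine Nat.card_le_card_of_injective (fun A =>
    (⟨fun x => (A.1 x).map e.toEmbedding, ?_, ?_⟩ : Lall n γ)) ?_
  · intro x y hxy
    exact A.2.1 (Finset.map_injective _ hxy)
  · intro x y
    obtain ⟨z, hz⟩ := A.2.2 x y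
    refine ⟨z, ?_⟩
    show (A.1 z).map _ = _
    rw [hz, Finset.map_union]
  · intro A A' heq
    have h1 := congrArg Subtype.val heq
    apply Subtype.ext
    funext x
    exact Finset.map_injective _ (congrFun h1 x)

end Pool.Agent.N363.SL
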