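import Pool.Agent.N363.SL.Code

/-!
# There are at least `2 ^ (t ^ (3/2) / 24)` join-semilattice orders on `t` elements
-/

set_option autoImplicit false

namespace Pool.Agent.N363.SL

open Finset
open scoped Classical

/-- points, lines and a chain on the top -/
def geo {X Y Z : Type} [LE Z] (E : X → Y → Prop) : X ⊕ (Y ⊕ Z) → X ⊕ (Y ⊕ Z) → Prop
  | Sum.inl x, Sum.inl x' => x = x'
  | Sum.inl x, Sum.inr (Sum.inl y) => E x y
  | Sum.inl _, Sum.inr (Sum.inr _) => True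
  | Sum.inr (Sum.inl _), Sum.inl _ => False
  | Sum.inr (Sum.inl y), Sum.inr (Sum.inl y') => y = y'
  | Sum.inr (Sum.inl _), Sum.inr (Sum.inr _) => True
  | Sum.inr (Sum.inr _), Sum.inl _ => False
  | Sum.inr (Sum.inr _), Sum.inr (Sum.inl _) => False
  | Sum.inr (Sum.inr i), Sum.inr (Sum.inr j) => i ≤ j

theorem geo_JSL {X Y Z : Type} [LinearOrder Z] [OrderBot Z] (E : X → Y → Prop)
    (hE : ∀ x x' y y', x ≠ x' → E x y → E x' y → E x y' → E x' y' → y = y') :
    JSL (geo (Z := Z) E) where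
  refl x := by rcases x with x | y | z <;> simp [geo]
  antisymm x x' h1 h2 := by
    rcases x with x | y | z <;> rcases x' with x' | y' | z' <;> simp only [geo] at h1 h2
    · rw [h1]
    · rw [h1]
    · rw [le_antisymm h1 h2]
  trans x x' x'' h1 h2 := by
    rcases x with x | y | z <;> rcases x' with x' | y' | z' <;> rcases x'' with x'' | y'' | z'' <;>
      simp only [geo] at h1 h2 ⊢
    · rw [h1, h2]
    · rw [h1]; exact h2
    · rw [← h2]; exact h1
    · rw [h1, h2]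
    · exact le_trans h1 h2
  join a b := by
    rcases a with x | y | z <;> rcases b with x' | y' | z'
    · by_cases hxx : x = x'
      · subst hxx
        exact ⟨Sum.inl x, rfl, rfl, fun w hw _ => hw⟩
      · by_cases hy : ∃ y, E x y ∧ E x' y
        · obtain ⟨y, h1, h2⟩ := hy
          refine ⟨Sum.inr (Sum.inl y), h1, h2, ?_⟩
          intro w hw1 hw2
          rcases w with x'' | y'' | z''
          · simp only [geo] at hw1 hw2
            exact absurd (hw1.trans hw2.symm) hxx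
          · simp only [geo] at hw1 hw2 ⊢
            exact hE x x' y y'' hxx h1 h2 hw1 hw2
          · trivial
        · refine ⟨Sum.inr (Sum.inr ⊥), trivial, trivial, ?_⟩
          intro w hw1 hw2
          rcases w with x'' | y'' | z''
          · simp only [geo] at hw1 hw2
            exact absurd (hw1.trans hw2.symm) hxx
          · exact absurd ⟨y'', hw1, hw2⟩ hy
          · exact bot_le
    · by_cases hxy : E x y'
      · exact ⟨Sum.inr (Sum.inl y'), hxy, rfl, fun w _ hw => hw⟩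
      · refine ⟨Sum.inr (Sum.inr ⊥), trivial, trivial, ?_⟩
        intro w hw1 hw2
        rcases w with x'' | y'' | z''
        · exact hw2.elim
        · simp only [geo] at hw1 hw2
          rw [hw2] at hxy
          exact absurd hw1 hxy
        · exact bot_le
    · refine ⟨Sum.inr (Sum.inr z'), trivial, le_rfl, fun w _ hw => hw⟩
    · by_cases hxy : E x' y
      · exact ⟨Sum.inr (Sum.inl y), rfl, hxy, fun w hw _ => hw⟩
      · refine ⟨Sum.inr (Sum.inr ⊥), trivial, trivial, ?_⟩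
        intro w hw1 hw2
        rcases w with x'' | y'' | z''
        · exact hw1.elim
        · simp only [geo] at hw1 hw2
          rw [hw1] at hxy
          exact absurd hw2 hxy
        · exact bot_le
    · by_cases hyy : y = y'
      · subst hyy
        exact ⟨Sum.inr (Sum.inl y), rfl, rfl, fun w hw _ => hw⟩
      · refine ⟨Sum.inr (Sum.inr ⊥), trivial, trivial, ?_⟩
        intro w hw1 hw2
        rcases w with x'' | y'' | z''
        · exact hw1.elim
        · simp only [geo] at hw1 hw2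
          exact absurd (hw1.trans hw2.symm) hyy
        · exact bot_le
    · exact ⟨Sum.inr (Sum.inr z'), trivial, le_rfl, fun w _ hw => hw⟩
    · exact ⟨Sum.inr (Sum.inr z), le_rfl, trivial, fun w hw _ => hw⟩
    · exact ⟨Sum.inr (Sum.inr z), le_rfl, trivial, fun w hw _ => hw⟩
    · refine ⟨Sum.inr (Sum.inr (max z z')), le_max_left _ _, le_max_right _ _, ?_⟩
      intro w hw1 hw2
      rcases w with x'' | y'' | z''
      · exact hw1.elim
      · exact hw1.elim
      · exact max_le hw1 hw2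

theorem sN_geo {X Y Z : Type} [LinearOrder Z] [OrderBot Z] [Finite X] [Finite Y] [Finite Z]
    (I : X → Y → Prop)
    (hI : ∀ x x' y y', x ≠ x' → I x y → I x' y → I x y' → I x' y' → y = y') :
    2 ^ Nat.card {q : X × Y // I q.1 q.2} ≤ sN (X ⊕ (Y ⊕ Z)) := by
  have h1 : Nat.card ({q : X × Y // I q.1 q.2} → Prop) = 2 ^ Nat.card {q : X × Y // I q.1 q.2} := by
    rw [Nat.card_fun, Nat.card_eq_fintype_card, Fintype.card_prop]
  rw [← h1]
  unfold sN
  have hle : ∀ (f : {q : X × Y // I q.1 q.2} → Prop) (x : X) (y : Y),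
      (∃ h : I x y, f ⟨(x, y), h⟩) → I x y := fun f x y h => h.1
  refine Nat.card_le_card_of_injective (fun f => (⟨geo (fun x y => ∃ h : I x y, f ⟨(x, y), h⟩),
    geo_JSL _ (fun x x' y y' hx h1 h2 h3 h4 => hI x x' y y' hx (hle f _ _ h1) (hle f _ _ h2)
      (hle f _ _ h3) (hle f _ _ h4))⟩ : {R : X ⊕ (Y ⊕ Z) → X ⊕ (Y ⊕ Z) → Prop // JSL R})) ?_
  intro f f' hff
  funext ⟨⟨x, y⟩, hxy⟩
  have h2 := congrFun (congrFun (congrArg Subtype.val hff) (Sum.inl x)) (Sum.inr (Sum.inl y))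
  simp only [geo] at h2
  apply propext
  constructor
  · intro hf
    have h3 : ∃ h : I x y, f ⟨(x, y), h⟩ := ⟨hxy, hf⟩
    rw [h2] at h3
    exact h3.2
  · intro hf
    have h3 : ∃ h : I x y, f' ⟨(x, y), h⟩ := ⟨hxy, hf⟩
    rw [← h2] at h3
    exact h3.2

theorem sN_prime {α : Type} [Fintype α] {p : ℕ} (hp : p.Prime)
    (hc : 2 * p ^ 2 + 1 ≤ Fintype.card α) : 2 ^ p ^ 3 ≤ sN α := by
  have : Fact p.Prime := ⟨hp⟩
  have : NeZero p := ⟨hp.ne_zero⟩
  obtain ⟨m, hm⟩ : ∃ m, Fintype.card α = 2 * p ^ 2 + 1 + m := ⟨_, (Nat.add_sub_cancel' hc).symm⟩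
  obtain ⟨I, hI⟩ : ∃ I : (ZMod p × ZMod p) → (ZMod p × ZMod p) → Prop,
      I = fun u l => u.2 = l.1 * u.1 + l.2 := ⟨_, rfl⟩
  have hI4 : ∀ x x' y y', x ≠ x' → I x y → I x' y → I x y' → I x' y' → y = y' := by
    rw [hI]
    rintro ⟨x1, y1⟩ ⟨x2, y2⟩ ⟨a, b⟩ ⟨a', b'⟩ hne h1 h2 h3 h4
    simp only at h1 h2 h3 h4
    have hx : x1 ≠ x2 := by
      rintro rfl
      apply hne
      rw [h1, h2]
    have e1 : (a - a') * (x1 - x2) = 0 := by linear_combination h3 - h1 - h4 + h2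
    rcases mul_eq_zero.1 e1 with h | h
    · have ha : a = a' := sub_eq_zero.1 h
      subst ha
      have hb : b = b' := by linear_combination h3 - h1
      rw [hb]
    · exact absurd (sub_eq_zero.1 h) hx
  have h1 := sN_geo (Z := Fin (m + 1)) I hI4
  have hcard : p ^ 3 ≤ Nat.card {q : (ZMod p × ZMod p) × (ZMod p × ZMod p) // I q.1 q.2} := by
    have e1 : Nat.card (ZMod p × ZMod p × ZMod p) = p ^ 3 := by
      rw [Nat.card_prod, Nat.card_prod, Nat.card_zmod]
      ring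
    rw [← e1]
    refine Nat.card_le_card_of_injective (fun t => ⟨((t.1, t.2.1 * t.1 + t.2.2), (t.2.1, t.2.2)),
      by rw [hI]⟩) ?_
    rintro ⟨x, a, b⟩ ⟨x', a', b'⟩ h
    simp only [Subtype.mk.injEq, Prod.mk.injEq] at h
    obtain ⟨⟨h1, -⟩, h2, h3⟩ := h
    rw [h1, h2, h3]
  have hcα : Fintype.card ((ZMod p × ZMod p) ⊕ ((ZMod p × ZMod p) ⊕ Fin (m + 1))) =
      Fintype.card α := by
    rw [hm, Fintype.card_sum, Fintype.card_sum, Fintype.card_prod, ZMod.card, Fintype.card_fin]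
    ring
  have e := Fintype.equivOfCardEq hcα
  exact (Nat.pow_le_pow_right (by norm_num) hcard).trans (h1.trans (sN_le_of_equiv e))

theorem exists_prime_between {t : ℕ} (ht : 9 ≤ t) : ∃ p : ℕ, p.Prime ∧ 2 * p ^ 2 + 1 ≤ t ∧
    t ≤ 8 * p ^ 2 := by
  obtain ⟨q, hq⟩ : ∃ q, q = Nat.sqrt ((t - 1) / 2) := ⟨_, rfl⟩
  have h1 : q ^ 2 ≤ (t - 1) / 2 := by rw [hq, pow_two]; exact Nat.sqrt_le _
  have h2 : (t - 1) / 2 < (q + 1) ^ 2 := by
    rw [hq, pow_two]
    exact Nat.lt_succ_sqrt _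
  have hq2 : 2 ≤ q := by
    rw [hq, Nat.le_sqrt]
    omega
  obtain ⟨p, hp, hp1, hp2⟩ := Nat.exists_prime_lt_and_le_two_mul (q / 2) (by omega)
  have hpq : p ≤ q := by omega
  have hpq2 : q + 1 ≤ 2 * p := by omega
  refine ⟨p, hp, ?_, ?_⟩
  · have h3 : p ^ 2 ≤ q ^ 2 := Nat.pow_le_pow_left hpq 2
    omega
  · have h3 : (q + 1) ^ 2 ≤ (2 * p) ^ 2 := Nat.pow_le_pow_left hpq2 2
    have h4 : (2 * p) ^ 2 = 4 * p ^ 2 := by ring
    omega

theorem sN_lower {α : Type} [Fintype α] (ht : 9 ≤ Fintype.card α) :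
    (2 : ℝ) ^ ((Fintype.card α : ℝ) * √(Fintype.card α) / 24) ≤ (sN α : ℝ) := by
  obtain ⟨p, hp, h1, h2⟩ := exists_prime_between ht
  have h3 := sN_prime (α := α) hp h1
  obtain ⟨t, ht'⟩ : ∃ t : ℕ, t = Fintype.card α := ⟨_, rfl⟩
  rw [← ht'] at h2 ⊢
  have h2' : (t : ℝ) ≤ 8 * (p : ℝ) ^ 2 := by exact_mod_cast h2
  have h4 : √(t : ℝ) ≤ √8 * p := by
    calc √(t : ℝ) ≤ √(8 * (p : ℝ) ^ 2) := Real.sqrt_le_sqrt h2'
      _ = √8 * p := by rw [Real.sqrt_mul (by norm_num), Real.sqrt_sq (by positivity)]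
  have h8 : √(8 : ℝ) ≤ 3 := by
    rw [Real.sqrt_le_left (by norm_num)]
    norm_num
  have h5 : (t : ℝ) * √t / 24 ≤ ((p ^ 3 : ℕ) : ℝ) := by
    push_cast
    have hp0 : (0 : ℝ) ≤ p := by positivity
    have h6 : (t : ℝ) * √t ≤ (8 * (p : ℝ) ^ 2) * (√8 * p) :=
      mul_le_mul h2' h4 (Real.sqrt_nonneg _) (by positivity)
    have h7 : (8 * (p : ℝ) ^ 2) * (√8 * p) ≤ (8 * (p : ℝ) ^ 2) * (3 * p) :=
      mul_le_mul_of_nonneg_left (mul_le_mul_of_nonneg_right h8 hp0) (by positivity)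
    nlinarith
  calc (2 : ℝ) ^ ((t : ℝ) * √t / 24) ≤ (2 : ℝ) ^ (((p ^ 3 : ℕ) : ℝ)) :=
        Real.rpow_le_rpow_of_exponent_le (by norm_num) h5
    _ = (2 : ℝ) ^ (p ^ 3) := Real.rpow_natCast _ _
    _ ≤ (sN α : ℝ) := by exact_mod_cast h3

end Pool.Agent.N363.SL
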