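import Pool.Agent.N363.SL.Fam

/-!
# The main theorems
-/

set_option autoImplicit false

namespace Pool.Agent.N363.SL

open Finset
open scoped Classical

/-- the union-closed families with exactly `n` members -/
def famG (n : ℕ) (β : Type) [DecidableEq β] : Set (Finset (Finset β)) :=
  {F | F.card = n ∧ ∀ X ∈ F, ∀ Y ∈ F, X ∪ Y ∈ F}

section

variable {n : ℕ} {β : Type} [DecidableEq β]

theorem Lst_of_fam {F : Finset (Finset β)} (hF : ∀ X ∈ F, ∀ Y ∈ F, X ∪ Y ∈ F) (e : Fin n ≃ F) :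
    Lst (fun x => (e x : Finset β)) (fun x y => (e x : Finset β) ⊆ e y) where
  incl _ _ := Iff.rfl
  inj x y h := e.injective (Subtype.ext h)
  union x y := by
    refine ⟨e.symm ⟨(e x : Finset β) ∪ e y, hF _ (e x).2 _ (e y).2⟩, ?_⟩
    ext i
    simp [mem_union]

omit [DecidableEq β] in
theorem fam_equiv {F : Finset (Finset β)} (hF : F.card = n) : Nonempty (Fin n ≃ F) :=
  ⟨(Fintype.equivFinOfCardEq (by rw [Fintype.card_coe, hF])).symm⟩

theorem bad_le [Fintype β] (k : ℕ) :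
    n.factorial * ({F | F ∈ famG n β ∧ ¬ Abundant F k (√k / 400)} : Set _).ncard ≤
      ({A | A ∈ Lall n β ∧ (fun x y => A x ⊆ A y) ∈ V n k ⌊√(k : ℝ) / 400⌋₊} :
        Set (Fin n → Finset β)).ncard := by
  have e1 : n.factorial * ({F | F ∈ famG n β ∧ ¬ Abundant F k (√k / 400)} : Set _).ncard =
      Nat.card (Equiv.Perm (Fin n) ×
        ({F | F ∈ famG n β ∧ ¬ Abundant F k (√k / 400)} : Set (Finset (Finset β)))) := by
    rw [Nat.card_prod, Nat.card_coe_set_eq, Nat.card_eq_fintype_card, Fintype.card_perm,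
      Fintype.card_fin]
  rw [e1, ← Nat.card_coe_set_eq]
  obtain ⟨e⟩ : Nonempty (∀ F : ({F | F ∈ famG n β ∧ ¬ Abundant F k (√k / 400)} :
      Set (Finset (Finset β))), Fin n ≃ F.1) :=
    ⟨fun F => Classical.choice (fam_equiv F.2.1.1)⟩
  have hmem : ∀ (σ : Equiv.Perm (Fin n))
      (F : ({F | F ∈ famG n β ∧ ¬ Abundant F k (√k / 400)} : Set (Finset (Finset β)))),
      (fun x => (e F (σ x) : Finset β)) ∈
        ({A | A ∈ Lall n β ∧ (fun x y => A x ⊆ A y) ∈ V n k ⌊√(k : ℝ) / 400⌋₊} :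
        Set (Fin n → Finset β)) := by
    intro σ F
    have h1 := Lst_of_fam F.2.1.2 (σ.trans (e F))
    exact ⟨(Lall_iff _).2 h1, mem_V (σ.trans (e F)) h1 F.2.2⟩
  refine Nat.card_le_card_of_injective (fun p => ⟨_, hmem p.1 p.2⟩) ?_
  rintro ⟨σ, F⟩ ⟨σ', F'⟩ heq
  have h1 : (fun x => (e F (σ x) : Finset β)) = (fun x => (e F' (σ' x) : Finset β)) :=
    congrArg Subtype.val heq
  have hFF : F = F' := by
    apply Subtype.ext
    ext X
    constructor
    · intro hX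
      have h2 := congrFun h1 (σ.symm ((e F).symm ⟨X, hX⟩))
      simp only [Equiv.apply_symm_apply] at h2
      rw [h2]
      exact (e F' _).2
    · intro hX
      have h2 := congrFun h1 (σ'.symm ((e F').symm ⟨X, hX⟩))
      simp only [Equiv.apply_symm_apply] at h2
      rw [← h2]
      exact (e F _).2
  subst hFF
  have hσ : σ = σ' := by
    ext x
    have h2 := congrFun h1 x
    exact congrArg Fin.val ((e F).injective (Subtype.ext h2))
  rw [hσ]

theorem Lall_le [Fintype β] : (Lall n β).ncard ≤ n.factorial * (famG n β).ncard := by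
  have e1 : n.factorial * (famG n β).ncard = Nat.card (Equiv.Perm (Fin n) × famG n β) := by
    rw [Nat.card_prod, Nat.card_coe_set_eq, Nat.card_eq_fintype_card, Fintype.card_perm,
      Fintype.card_fin]
  rw [e1, ← Nat.card_coe_set_eq]
  obtain ⟨e⟩ : Nonempty (∀ F : famG n β, Fin n ≃ F.1) :=
    ⟨fun F => Classical.choice (fam_equiv F.2.1)⟩
  have hfam : ∀ A : Lall n β, (univ.image A.1) ∈ famG n β := by
    intro A
    refine ⟨?_, ?_⟩
    · rw [card_image_of_injective _ A.2.1, card_univ, Fintype.card_fin]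
    · intro X hX Y hY
      rw [mem_image] at hX hY ⊢
      obtain ⟨x, -, rfl⟩ := hX
      obtain ⟨y, -, rfl⟩ := hY
      obtain ⟨z, hz⟩ := A.2.2 x y
      refine ⟨z, mem_univ _, ?_⟩
      rw [hz]
      ext i
      simp [mem_union]
  have hbij : ∀ A : Lall n β, Function.Bijective
      (fun x => (⟨A.1 x, mem_image_of_mem _ (mem_univ _)⟩ : {X // X ∈ univ.image A.1})) := by
    intro A
    refine ⟨fun x y h => A.2.1 (congrArg Subtype.val h), ?_⟩
    rintro ⟨X, hX⟩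
    obtain ⟨x, -, hx⟩ := mem_image.1 hX
    exact ⟨x, Subtype.ext hx⟩
  refine Nat.card_le_card_of_injective (fun A =>
    ((Equiv.ofBijective _ (hbij A)).trans (e ⟨_, hfam A⟩).symm, ⟨_, hfam A⟩)) ?_
  intro A A' heq
  rw [Prod.mk.injEq] at heq
  obtain ⟨h1, h2⟩ := heq
  have h3 : ∀ B : Lall n β, ∀ x, (e ⟨_, hfam B⟩ (((Equiv.ofBijective _ (hbij B)).trans
      (e ⟨_, hfam B⟩).symm) x) : Finset β) = B.1 x := by
    intro B x
    simp
  apply Subtype.ext
  funext x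
  rw [← h3 A x, ← h3 A' x, h1]
  have h4 : ∀ (P Q : famG n β) (_ : P = Q) (z : Fin n), (e P z : Finset β) = e Q z := by
    rintro P Q rfl z
    rfl
  exact h4 _ _ h2 _

end

/-! ### Numerics -/

theorem numerics2 {n k : ℕ} (hn : 2 ≤ n)
    (hk : 10000000 * (n : ℝ) ^ 2 * Real.log n ^ 4 ≤ (k : ℝ) ^ 3) :
    ((n : ℝ) + 1) ^ n ≤ (2 : ℝ) ^ (7 * ((k : ℝ) * √k) / 6000) := by
  have hn' : (2 : ℝ) ≤ n := by exact_mod_cast hn
  have hlog2 : (0.693 : ℝ) < Real.log 2 := by linarith [Real.log_two_gt_d9]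
  have hlog : (0.693 : ℝ) < Real.log n :=
    lt_of_lt_of_le hlog2 (Real.log_le_log (by norm_num) hn')
  have hl1 : Real.log ((n : ℝ) + 1) ≤ Real.log n + 1 / 2 := by
    have h1 : (n : ℝ) + 1 = n * (1 + 1 / n) := by field_simp
    rw [h1, Real.log_mul (by positivity) (by positivity)]
    have h2 := Real.log_le_sub_one_of_pos (show (0 : ℝ) < 1 + 1 / n by positivity)
    have h3 : (1 : ℝ) / n ≤ 1 / 2 := one_div_le_one_div_of_le (by norm_num) hn'
    linarith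
  obtain ⟨l, hl⟩ : ∃ l, l = Real.log n := ⟨_, rfl⟩
  rw [← hl] at hk hlog hl1
  have hk0 : (0 : ℝ) ≤ k := by positivity
  have hsq : (3162 * (n : ℝ) * l ^ 2) ^ 2 ≤ (k * √k) ^ 2 := by
    rw [mul_pow (k : ℝ), Real.sq_sqrt hk0]
    calc (3162 * (n : ℝ) * l ^ 2) ^ 2 = 9998244 * ((n : ℝ) ^ 2 * l ^ 4) := by ring
      _ ≤ 10000000 * ((n : ℝ) ^ 2 * l ^ 4) :=
        mul_le_mul_of_nonneg_right (by norm_num) (by positivity)
      _ = 10000000 * (n : ℝ) ^ 2 * l ^ 4 := by ring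
      _ ≤ (k : ℝ) ^ 3 := hk
      _ = (k : ℝ) ^ 2 * k := by ring
  have h1 : 3162 * (n : ℝ) * l ^ 2 ≤ k * √k :=
    le_of_sq_le_sq hsq (by positivity)
  have h2 : Real.logb 2 ((n : ℝ) + 1) ≤ 2.5 * l := by
    unfold Real.logb
    rw [div_le_iff₀ (by linarith)]
    nlinarith
  have e1 : (n : ℝ) + 1 = (2 : ℝ) ^ (Real.logb 2 ((n : ℝ) + 1)) :=
    (Real.rpow_logb (by norm_num) (by norm_num) (by positivity)).symm
  calc ((n : ℝ) + 1) ^ n = ((2 : ℝ) ^ (Real.logb 2 ((n : ℝ) + 1))) ^ n := by rw [← e1]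
    _ = (2 : ℝ) ^ (Real.logb 2 ((n : ℝ) + 1) * n) := by
      rw [← Real.rpow_natCast, ← Real.rpow_mul (by norm_num)]
    _ ≤ (2 : ℝ) ^ (7 * ((k : ℝ) * √k) / 6000) := by
      apply Real.rpow_le_rpow_of_exponent_le (by norm_num)
      have h3 : Real.logb 2 ((n : ℝ) + 1) * n ≤ 2.5 * l * n :=
        mul_le_mul_of_nonneg_right h2 (by positivity)
      have h4 : (0.693 : ℝ) * (n * l) ≤ n * l ^ 2 := by nlinarith [mul_pos (by linarith : (0 : ℝ) < n) (by linarith : (0 : ℝ) < l)]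
      nlinarith

theorem V_bound {n k : ℕ} (hn : 2 ≤ n) (hkn : k ≤ n)
    (hk : 10000000 * (n : ℝ) ^ 2 * Real.log n ^ 4 ≤ (k : ℝ) ^ 3) :
    ((V n k ⌊√(k : ℝ) / 400⌋₊).ncard : ℝ) ≤ (2 : ℝ) ^ (-((k : ℝ) * √k / 600)) * sN (Fin n) := by
  refine V_card hn hkn ?_ (Nat.floor_le (by positivity))
  refine le_trans ?_ hk
  have h1 : (0 : ℝ) ≤ (n : ℝ) ^ 2 * Real.log n ^ 4 := by positivity
  nlinarith

/-- families of `n` subsets of a set with at least `n` elements -/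
theorem fam_bound {n k m : ℕ} (hn : 2 ≤ n) (hkn : k ≤ n)
    (hk : 10000000 * (n : ℝ) ^ 2 * Real.log n ^ 4 ≤ (k : ℝ) ^ 3) (hm : n ≤ m) :
    (({F | F ∈ famG n (Fin m) ∧ ¬ Abundant F k (√k / 400)} : Set _).ncard : ℝ) ≤
      (2 : ℝ) ^ (-((k : ℝ) * √k / 2000)) * (famG n (Fin m)).ncard := by
  obtain ⟨d, rfl⟩ := Nat.exists_eq_add_of_le hm
  obtain ⟨a, ha⟩ : ∃ a, a = ({F | F ∈ famG n (Fin (n + d)) ∧ ¬ Abundant F k (√k / 400)} :
    Set _).ncard := ⟨_, rfl⟩
  rw [← ha]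
  obtain ⟨f, hf⟩ : ∃ f, f = (famG n (Fin (n + d))).ncard := ⟨_, rfl⟩
  rw [← hf]
  have h1 : n.factorial * a ≤ (V n k ⌊√(k : ℝ) / 400⌋₊).ncard * (n + 1) ^ (n + d) := by
    rw [ha]
    refine (bad_le k).trans ?_
    have := Lall_upper (n := n) (β := Fin (n + d)) (V n k ⌊√(k : ℝ) / 400⌋₊)
    rwa [Fintype.card_fin] at this
  have h2 : sN (Fin n) * (n + 1) ^ d ≤ n.factorial * f := by
    rw [hf]
    exact (Lall_lower n d).trans ((Lall_equiv finSumFinEquiv).trans Lall_le)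
  have h3 := V_bound hn hkn hk
  have h4 := numerics2 hn hk
  have hfac : (0 : ℝ) < n.factorial := by exact_mod_cast n.factorial_pos
  have h1' : (n.factorial : ℝ) * a ≤
      ((V n k ⌊√(k : ℝ) / 400⌋₊).ncard : ℝ) * ((n : ℝ) + 1) ^ (n + d) := by exact_mod_cast h1
  have h2' : (sN (Fin n) : ℝ) * ((n : ℝ) + 1) ^ d ≤ (n.factorial : ℝ) * f := by exact_mod_cast h2
  have h5 : (n.factorial : ℝ) * a ≤
      (n.factorial : ℝ) * ((2 : ℝ) ^ (-((k : ℝ) * √k / 2000)) * f) := by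
    calc (n.factorial : ℝ) * a ≤
        ((V n k ⌊√(k : ℝ) / 400⌋₊).ncard : ℝ) * ((n : ℝ) + 1) ^ (n + d) := h1'
      _ ≤ ((2 : ℝ) ^ (-((k : ℝ) * √k / 600)) * sN (Fin n)) * ((n : ℝ) + 1) ^ (n + d) :=
        mul_le_mul_of_nonneg_right h3 (by positivity)
      _ = (2 : ℝ) ^ (-((k : ℝ) * √k / 600)) * ((n : ℝ) + 1) ^ n *
          (sN (Fin n) * ((n : ℝ) + 1) ^ d) := by rw [pow_add]; ring
      _ ≤ (2 : ℝ) ^ (-((k : ℝ) * √k / 600)) * (2 : ℝ) ^ (7 * ((k : ℝ) * √k) / 6000) *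
          (n.factorial * f) := by
        apply mul_le_mul _ h2' (by positivity) (by positivity)
        exact mul_le_mul_of_nonneg_left h4 (by positivity)
      _ = (2 : ℝ) ^ (-((k : ℝ) * √k / 2000)) * (n.factorial * f) := by
        rw [← Real.rpow_add (by norm_num)]
        congr 2
        ring
      _ = _ := by ring
  exact le_of_mul_le_mul_left h5 hfac

/-! ### Orders -/

theorem Lst.union_mem {n : ℕ} {β : Type} {A : Fin n → Finset β} {R : Fin n → Fin n → Prop}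
    (h : Lst A R) (x y : Fin n) : ∃ z, ∀ i, i ∈ A z ↔ i ∈ A x ∨ i ∈ A y := by
  obtain ⟨z, hz⟩ := h.union x y
  exact ⟨z, fun i => by rw [hz, mem_union]⟩

/-- `R` is the inclusion order of the union-closed family `F` -/
def IsOrderOf {n : ℕ} (R : Fin n → Fin n → Prop) (F : Finset (Finset ℕ)) : Prop :=
  (∀ X ∈ F, ∀ Y ∈ F, X ∪ Y ∈ F) ∧ ∃ e : Fin n ≃ F, ∀ x y, R x y ↔ (e x : Finset ℕ) ⊆ e y

theorem orders_eq (n : ℕ) :
    {R : Fin n → Fin n → Prop | ∃ F : Finset (Finset ℕ), IsOrderOf R F} = {R | JSL R} := by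
  ext R
  constructor
  · rintro ⟨F, hF, e, he⟩
    have h1 := (Lst_of_fam hF e).JSL
    have h2 : R = fun x y => (e x : Finset ℕ) ⊆ e y := by
      funext x y
      exact propext (he x y)
    rw [← h2] at h1
    exact h1
  · intro hR
    have h1 := mkA_Lst (β := Fin n) hR (fun i => some i) (fun z => ⟨z, rfl⟩)
    obtain ⟨A, hA⟩ : ∃ A : Fin n → Finset ℕ,
        A = fun x => (mkA R (fun i => some i) x).map Fin.valEmbedding := ⟨_, rfl⟩
    have hinj : Function.Injective A := by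
      intro x y hxy
      rw [hA] at hxy
      exact h1.inj (Finset.map_injective _ hxy)
    have hbij : Function.Bijective
        (fun x => (⟨A x, mem_image_of_mem _ (mem_univ _)⟩ : {X // X ∈ univ.image A})) := by
      refine ⟨fun x y h => hinj (congrArg Subtype.val h), ?_⟩
      rintro ⟨X, hX⟩
      obtain ⟨x, -, hx⟩ := mem_image.1 hX
      exact ⟨x, Subtype.ext hx⟩
    refine ⟨univ.image A, ?_, Equiv.ofBijective _ hbij, ?_⟩
    · intro X hX Y hY
      rw [mem_image] at hX hY ⊢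
      obtain ⟨x, -, rfl⟩ := hX
      obtain ⟨y, -, rfl⟩ := hY
      obtain ⟨z, hz'⟩ := h1.union_mem x y
      refine ⟨z, mem_univ _, ?_⟩
      rw [hA]
      ext i
      simp only [mem_map, mem_union, hz']
      constructor
      · rintro ⟨a, ha | ha, rfl⟩
        · exact Or.inl ⟨a, ha, rfl⟩
        · exact Or.inr ⟨a, ha, rfl⟩
      · rintro (⟨a, ha, rfl⟩ | ⟨a, ha, rfl⟩)
        · exact ⟨a, Or.inl ha, rfl⟩
        · exact ⟨a, Or.inr ha, rfl⟩
    · intro x y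
      show R x y ↔ A x ⊆ A y
      rw [h1.incl, hA]
      exact (Finset.map_subset_map).symm

theorem orders_ncard (n : ℕ) :
    {R : Fin n → Fin n → Prop | ∃ F : Finset (Finset ℕ), IsOrderOf R F}.ncard = sN (Fin n) := by
  rw [orders_eq]
  rfl

theorem bad_orders_sub (n k : ℕ) :
    {R : Fin n → Fin n → Prop | ∃ F : Finset (Finset ℕ), IsOrderOf R F ∧
      ¬ Abundant F k (√k / 400)} ⊆ V n k ⌊√(k : ℝ) / 400⌋₊ := by
  rintro R ⟨F, ⟨hF, e, he⟩, hab⟩
  have h2 : R = fun x y => (e x : Finset ℕ) ⊆ e y := by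
    funext x y
    exact propext (he x y)
  rw [h2]
  exact mem_V e (Lst_of_fam hF e) hab

/-- the orders isomorphic to `R` -/
def isoClass {n : ℕ} (R : Fin n → Fin n → Prop) : Set (Fin n → Fin n → Prop) :=
  {R' | ∃ σ : Equiv.Perm (Fin n), ∀ x y, R' x y ↔ R (σ x) (σ y)}

theorem isoClass_ncard {n : ℕ} (R : Fin n → Fin n → Prop) :
    (isoClass R).ncard ≤ n.factorial := by
  have h1 : isoClass R ⊆
      (fun σ : Equiv.Perm (Fin n) => fun x y => R (σ x) (σ y)) '' Set.univ := by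
    rintro R' ⟨σ, hσ⟩
    refine ⟨σ, Set.mem_univ _, ?_⟩
    funext x y
    exact propext (hσ x y).symm
  refine (Set.ncard_le_ncard h1 (Set.toFinite _)).trans ((Set.ncard_image_le (Set.toFinite _)).trans
    (le_of_eq ?_))
  rw [Set.ncard_univ, Nat.card_eq_fintype_card, Fintype.card_perm, Fintype.card_fin]

theorem classes_bound {n : ℕ} (S : Set (Fin n → Fin n → Prop)) :
    S.ncard ≤ n.factorial * (isoClass '' S).ncard := by
  obtain ⟨T, hT⟩ : ∃ T : Finset (Set (Fin n → Fin n → Prop)), T = (isoClass '' S).toFinset :=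
    ⟨_, rfl⟩
  have h1 : S ⊆ ⋃ O ∈ T, O := by
    intro R hR
    simp only [Set.mem_iUnion]
    refine ⟨isoClass R, ?_, Equiv.refl _, fun x y => Iff.rfl⟩
    rw [hT, Set.mem_toFinset]
    exact ⟨R, hR, rfl⟩
  have h2 := (Set.ncard_le_ncard h1 (Set.toFinite _)).trans
    (Finset.set_ncard_biUnion_le T (fun O => O))
  refine h2.trans ?_
  have h3 : ∑ O ∈ T, O.ncard ≤ T.card • n.factorial := by
    apply sum_le_card_nsmul
    intro O hO
    rw [hT, Set.mem_toFinset] at hO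
    obtain ⟨R, -, rfl⟩ := hO
    exact isoClass_ncard R
  refine h3.trans (le_of_eq ?_)
  rw [smul_eq_mul, mul_comm, hT, Set.ncard_eq_toFinset_card']

theorem orders_bound {n k : ℕ} (hn : 2 ≤ n) (hkn : k ≤ n)
    (hk : 10000000 * (n : ℝ) ^ 2 * Real.log n ^ 4 ≤ (k : ℝ) ^ 3) :
    ({R : Fin n → Fin n → Prop | ∃ F : Finset (Finset ℕ), IsOrderOf R F ∧
        ¬ Abundant F k (√k / 400)}.ncard : ℝ) ≤ (2 : ℝ) ^ (-((k : ℝ) * √k / 2000)) *
      {R : Fin n → Fin n → Prop | ∃ F : Finset (Finset ℕ), IsOrderOf R F}.ncard ∧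
    ((isoClass '' {R : Fin n → Fin n → Prop | ∃ F : Finset (Finset ℕ), IsOrderOf R F ∧
        ¬ Abundant F k (√k / 400)}).ncard : ℝ) ≤ (2 : ℝ) ^ (-((k : ℝ) * √k / 2000)) *
      (isoClass '' {R : Fin n → Fin n → Prop |
        ∃ F : Finset (Finset ℕ), IsOrderOf R F}).ncard := by
  have h1 : ({R : Fin n → Fin n → Prop | ∃ F : Finset (Finset ℕ), IsOrderOf R F ∧
        ¬ Abundant F k (√k / 400)}.ncard : ℝ) ≤ (2 : ℝ) ^ (-((k : ℝ) * √k / 600)) *
      sN (Fin n) := by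
    refine le_trans ?_ (V_bound hn hkn hk)
    exact_mod_cast Set.ncard_le_ncard (bad_orders_sub n k) (Set.toFinite _)
  have hk0 : (0 : ℝ) ≤ k * √k := by positivity
  constructor
  · rw [orders_ncard]
    refine h1.trans (mul_le_mul_of_nonneg_right ?_ (by positivity))
    apply Real.rpow_le_rpow_of_exponent_le (by norm_num)
    linarith
  · have h2 := classes_bound {R : Fin n → Fin n → Prop | ∃ F : Finset (Finset ℕ), IsOrderOf R F}
    rw [orders_ncard] at h2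
    obtain ⟨c, hc⟩ : ∃ c, c = (isoClass '' {R : Fin n → Fin n → Prop |
        ∃ F : Finset (Finset ℕ), IsOrderOf R F}).ncard := ⟨_, rfl⟩
    rw [← hc] at h2 ⊢
    have h3 : ((isoClass '' {R : Fin n → Fin n → Prop | ∃ F : Finset (Finset ℕ), IsOrderOf R F ∧
        ¬ Abundant F k (√k / 400)}).ncard : ℝ) ≤ ({R : Fin n → Fin n → Prop |
          ∃ F : Finset (Finset ℕ), IsOrderOf R F ∧ ¬ Abundant F k (√k / 400)}.ncard : ℝ) := by
      exact_mod_cast Set.ncard_image_le (Set.toFinite _)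
    have h4 : (n.factorial : ℝ) ≤ ((n : ℝ) + 1) ^ n := by
      have h5 : n.factorial ≤ (n + 1) ^ n :=
        (Nat.factorial_le_pow n).trans (Nat.pow_le_pow_left (Nat.le_succ n) n)
      exact_mod_cast h5
    have h5 : (sN (Fin n) : ℝ) ≤ (2 : ℝ) ^ (7 * ((k : ℝ) * √k) / 6000) * c := by
      calc (sN (Fin n) : ℝ) ≤ (n.factorial : ℝ) * c := by exact_mod_cast h2
        _ ≤ (2 : ℝ) ^ (7 * ((k : ℝ) * √k) / 6000) * c :=
          mul_le_mul_of_nonneg_right (h4.trans (numerics2 hn hk)) (by positivity)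
    calc _ ≤ _ := h3
      _ ≤ (2 : ℝ) ^ (-((k : ℝ) * √k / 600)) * sN (Fin n) := h1
      _ ≤ (2 : ℝ) ^ (-((k : ℝ) * √k / 600)) * ((2 : ℝ) ^ (7 * ((k : ℝ) * √k) / 6000) * c) :=
        mul_le_mul_of_nonneg_left h5 (by positivity)
      _ = (2 : ℝ) ^ (-((k : ℝ) * √k / 2000)) * c := by
        rw [← mul_assoc, ← Real.rpow_add (by norm_num)]
        congr 2
        ring

/-! ### A fixed proportion -/

theorem eps_bound (ε : ℝ) (h0 : 0 < ε) (h1 : ε ≤ 1) : ∃ c : ℝ, 0 < c ∧ ∃ N : ℕ, ∀ n : ℕ, N ≤ n →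
    ∀ m : ℕ, n ≤ m →
      (({F | F ∈ famG n (Fin m) ∧ ∀ i, ((F.filter (fun X => i ∈ X)).card : ℝ) < (1 - ε) * n} :
        Set _).ncard : ℝ) ≤ (2 : ℝ) ^ (-(c * (n * √n))) * (famG n (Fin m)).ncard := by
  refine ⟨ε / 2 * √(ε / 2) / 2000, by positivity, ?_⟩
  -- the condition on `n`
  have hlog : ∀ᶠ x : ℝ in Filter.atTop, ‖Real.log x ^ 4‖ ≤ (ε / 2) ^ 3 / 10000000 * ‖id x‖ :=
    (Real.isLittleO_pow_log_id_atTop (n := 4)).bound (by positivity)
  have hnat := tendsto_natCast_atTop_atTop.eventually hlog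
  obtain ⟨N1, hN1⟩ := Filter.eventually_atTop.1 hnat
  obtain ⟨N2, hN2⟩ := exists_nat_ge (2 / ε)
  refine ⟨max (max N1 N2) 2, fun n hn m hm => ?_⟩
  have hn1 : N1 ≤ n := le_trans (le_trans (le_max_left _ _) (le_max_left _ _)) hn
  have hn2 : N2 ≤ n := le_trans (le_trans (le_max_right _ _) (le_max_left _ _)) hn
  have hn3 : 2 ≤ n := le_trans (le_max_right _ _) hn
  have hnε : 2 ≤ ε * n := by
    have h2 : 2 / ε ≤ n := hN2.trans (by exact_mod_cast hn2)
    rw [div_le_iff₀ h0] at h2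
    linarith
  obtain ⟨k, hk⟩ : ∃ k, k = ⌊ε * n⌋₊ := ⟨_, rfl⟩
  have hk1 : (k : ℝ) ≤ ε * n := by rw [hk]; exact Nat.floor_le (by positivity)
  have hk2 : ε / 2 * n ≤ k := by
    have := Nat.lt_floor_add_one (ε * (n : ℝ))
    rw [← hk] at this
    linarith
  have hkn : k ≤ n := by
    have h2 : ε * n ≤ n := by nlinarith
    have h3 : (k : ℝ) ≤ n := hk1.trans h2
    exact_mod_cast h3
  have hnpos : (0 : ℝ) < n := by
    have : (2 : ℝ) ≤ n := by exact_mod_cast hn3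
    linarith
  have hcond : 10000000 * (n : ℝ) ^ 2 * Real.log n ^ 4 ≤ (k : ℝ) ^ 3 := by
    have h2 := hN1 n hn1
    rw [id, Real.norm_of_nonneg hnpos.le, Real.norm_of_nonneg (by positivity)] at h2
    have h3 : (ε / 2 * n) ^ 3 ≤ (k : ℝ) ^ 3 := pow_le_pow_left₀ (by positivity) hk2 3
    have h4 : 10000000 * (n : ℝ) ^ 2 * Real.log n ^ 4 ≤
        10000000 * (n : ℝ) ^ 2 * ((ε / 2) ^ 3 / 10000000 * n) :=
      mul_le_mul_of_nonneg_left h2 (by positivity)
    have h5 : 10000000 * (n : ℝ) ^ 2 * ((ε / 2) ^ 3 / 10000000 * n) = (ε / 2 * n) ^ 3 := by ring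
    linarith
  have hkpos : (0 : ℝ) < k := lt_of_lt_of_le (by positivity) hk2
  have hmain := fam_bound hn3 hkn hcond hm
  have hsub : ({F | F ∈ famG n (Fin m) ∧
      ∀ i, ((F.filter (fun X => i ∈ X)).card : ℝ) < (1 - ε) * n} : Set (Finset (Finset (Fin m)))) ⊆
      {F | F ∈ famG n (Fin m) ∧ ¬ Abundant F k (√k / 400)} := by
    rintro F ⟨hF, hi⟩
    refine ⟨hF, ?_⟩
    rintro ⟨I, hI1, hI2, -⟩
    have hI0 : (0 : ℝ) < I.card := lt_of_lt_of_le (by positivity) hI1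
    obtain ⟨i, hiI⟩ := card_pos.1 (by exact_mod_cast hI0 : 0 < I.card)
    have h2 := hI2 i hiI
    rw [hF.1] at h2
    have h3 : (n : ℝ) ≤ ((F.filter (fun X => i ∈ X)).card : ℝ) + k := by exact_mod_cast h2
    have h4 := hi i
    have h5 : (1 - ε) * (n : ℝ) = n - ε * n := by ring
    linarith
  have h2 : ((({F | F ∈ famG n (Fin m) ∧
      ∀ i, ((F.filter (fun X => i ∈ X)).card : ℝ) < (1 - ε) * n} : Set _).ncard : ℕ) : ℝ) ≤
      (({F | F ∈ famG n (Fin m) ∧ ¬ Abundant F k (√k / 400)} : Set _).ncard : ℝ) := by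
    exact_mod_cast Set.ncard_le_ncard hsub (Set.toFinite _)
  refine h2.trans (hmain.trans (mul_le_mul_of_nonneg_right ?_ (by positivity)))
  apply Real.rpow_le_rpow_of_exponent_le (by norm_num)
  have h3 : √(ε / 2) * √n ≤ √k := by
    rw [← Real.sqrt_mul (by positivity)]
    exact Real.sqrt_le_sqrt hk2
  have h4 : (ε / 2 * n) * (√(ε / 2) * √n) ≤ k * √k :=
    mul_le_mul hk2 h3 (by positivity) hkpos.le
  have h5 : ε / 2 * √(ε / 2) / 2000 * (n * √n) = (ε / 2 * n) * (√(ε / 2) * √n) / 2000 := by ring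
  rw [h5]
  linarith

end Pool.Agent.N363.SL
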