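import Pool.Agent.N363.SL.Main

/-!
# A fixed proportion: many abundant elements
-/

set_option autoImplicit false

namespace Pool.Agent.N363.SL

open Finset

theorem eps_cond (ε : ℝ) (h0 : 0 < ε) (h1 : ε ≤ 1) : ∃ c : ℝ, 0 < c ∧ ∃ N : ℕ, ∀ n : ℕ, N ≤ n →
    2 ≤ n ∧ 2 ≤ c * √n ∧ ⌊ε * n⌋₊ ≤ n ∧
      10000000 * (n : ℝ) ^ 2 * Real.log n ^ 4 ≤ ((⌊ε * n⌋₊ : ℕ) : ℝ) ^ 3 ∧
      c * √n ≤ √((⌊ε * n⌋₊ : ℕ) : ℝ) / 400 ∧
      c * (n * √n) ≤ ((⌊ε * n⌋₊ : ℕ) : ℝ) * √((⌊ε * n⌋₊ : ℕ) : ℝ) / 2000 := by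
  refine ⟨ε / 2 * √(ε / 2) / 2000, by positivity, ?_⟩
  have hlog : ∀ᶠ x : ℝ in Filter.atTop, ‖Real.log x ^ 4‖ ≤ (ε / 2) ^ 3 / 10000000 * ‖id x‖ :=
    (Real.isLittleO_pow_log_id_atTop (n := 4)).bound (by positivity)
  have hnat := tendsto_natCast_atTop_atTop.eventually hlog
  obtain ⟨N1, hN1⟩ := Filter.eventually_atTop.1 hnat
  obtain ⟨N2, hN2⟩ := exists_nat_ge (2 / ε)
  obtain ⟨N3, hN3⟩ := exists_nat_ge ((2 / (ε / 2 * √(ε / 2) / 2000)) ^ 2)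
  refine ⟨max (max (max N1 N2) 2) N3, fun n hn => ?_⟩
  have hn0 : max (max N1 N2) 2 ≤ n := le_trans (le_max_left _ _) hn
  have hn1 : N1 ≤ n := le_trans (le_trans (le_max_left _ _) (le_max_left _ _)) hn0
  have hn2 : N2 ≤ n := le_trans (le_trans (le_max_right _ _) (le_max_left _ _)) hn0
  have hn3 : 2 ≤ n := le_trans (le_max_right _ _) hn0
  have hn4 : N3 ≤ n := le_trans (le_max_right _ _) hn
  have hnε : 2 ≤ ε * n := by
    have h2 : 2 / ε ≤ n := hN2.trans (by exact_mod_cast hn2)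
    rw [div_le_iff₀ h0] at h2
    linarith
  obtain ⟨k, hk⟩ : ∃ k, k = ⌊ε * n⌋₊ := ⟨_, rfl⟩
  rw [← hk]
  have hk1 : (k : ℝ) ≤ ε * n := by rw [hk]; exact Nat.floor_le (by positivity)
  have hk2 : ε / 2 * n ≤ k := by
    have := Nat.lt_floor_add_one (ε * (n : ℝ))
    rw [← hk] at this
    linarith
  have hkn : k ≤ n := by
    have h2 : ε * n ≤ n := by nlinarith
    have h3 : (k : ℝ) ≤ n := hk1.trans h2
    exact_mod_cast h3
  have hnpos : (0 : ℝ) < n := by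
    have : (2 : ℝ) ≤ n := by exact_mod_cast hn3
    linarith
  have hcond : 10000000 * (n : ℝ) ^ 2 * Real.log n ^ 4 ≤ (k : ℝ) ^ 3 := by
    have h2 := hN1 n hn1
    rw [id, Real.norm_of_nonneg hnpos.le, Real.norm_of_nonneg (by positivity)] at h2
    have h3 : (ε / 2 * n) ^ 3 ≤ (k : ℝ) ^ 3 := pow_le_pow_left₀ (by positivity) hk2 3
    have h4 : 10000000 * (n : ℝ) ^ 2 * Real.log n ^ 4 ≤
        10000000 * (n : ℝ) ^ 2 * ((ε / 2) ^ 3 / 10000000 * n) :=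
      mul_le_mul_of_nonneg_left h2 (by positivity)
    have h5 : 10000000 * (n : ℝ) ^ 2 * ((ε / 2) ^ 3 / 10000000 * n) = (ε / 2 * n) ^ 3 := by ring
    linarith
  have hkpos : (0 : ℝ) < k := lt_of_lt_of_le (by positivity) hk2
  have h3 : √(ε / 2) * √n ≤ √k := by
    rw [← Real.sqrt_mul (by positivity)]
    exact Real.sqrt_le_sqrt hk2
  have hc2 : 2 ≤ ε / 2 * √(ε / 2) / 2000 * √n := by
    have hc : 0 < ε / 2 * √(ε / 2) / 2000 := by positivity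
    have h4 : 2 / (ε / 2 * √(ε / 2) / 2000) ≤ √n := by
      apply Real.le_sqrt_of_sq_le
      exact hN3.trans (by exact_mod_cast hn4)
    rw [div_le_iff₀ hc] at h4
    linarith
  refine ⟨hn3, hc2, hkn, hcond, ?_, ?_⟩
  · have h5 : 0 ≤ √(ε / 2) * √n := by positivity
    have h4 : ε / 2 * √(ε / 2) / 2000 * √n = (ε / 2 / 2000) * (√(ε / 2) * √n) := by ring
    rw [h4]
    have h6 : ε / 2 / 2000 ≤ 1 / 400 := by linarith
    calc (ε / 2 / 2000) * (√(ε / 2) * √n) ≤ 1 / 400 * (√(ε / 2) * √n) :=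
          mul_le_mul_of_nonneg_right h6 h5
      _ ≤ √k / 400 := by linarith
  · have h4 : (ε / 2 * n) * (√(ε / 2) * √n) ≤ k * √k :=
      mul_le_mul hk2 h3 (by positivity) hkpos.le
    have h5 : ε / 2 * √(ε / 2) / 2000 * (n * √n) = (ε / 2 * n) * (√(ε / 2) * √n) / 2000 := by
      ring
    rw [h5]
    linarith

theorem Abundant.mono {β : Type} [DecidableEq β] {F : Finset (Finset β)} {k : ℕ} {s t : ℝ}
    (h : t ≤ s) (hF : Abundant F k s) : Abundant F k t := by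
  obtain ⟨I, h1, h2⟩ := hF
  exact ⟨I, h.trans h1, h2⟩

/-- for a fixed proportion: families, orders and isomorphism classes of orders -/
theorem eps_all (ε : ℝ) (h0 : 0 < ε) (h1 : ε ≤ 1) : ∃ c : ℝ, 0 < c ∧ ∃ N : ℕ, ∀ n : ℕ, N ≤ n →
    2 ≤ c * √n ∧
    (∀ m : ℕ, n ≤ m →
      (({F | F ∈ famG n (Fin m) ∧ ¬ Abundant F ⌊ε * n⌋₊ (c * √n)} : Set _).ncard : ℝ) ≤
        (2 : ℝ) ^ (-(c * (n * √n))) * (famG n (Fin m)).ncard) ∧
    ({R : Fin n → Fin n → Prop | ∃ F : Finset (Finset ℕ), IsOrderOf R F ∧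
        ¬ Abundant F ⌊ε * n⌋₊ (c * √n)}.ncard : ℝ) ≤ (2 : ℝ) ^ (-(c * (n * √n))) *
      {R : Fin n → Fin n → Prop | ∃ F : Finset (Finset ℕ), IsOrderOf R F}.ncard ∧
    ((isoClass '' {R : Fin n → Fin n → Prop | ∃ F : Finset (Finset ℕ), IsOrderOf R F ∧
        ¬ Abundant F ⌊ε * n⌋₊ (c * √n)}).ncard : ℝ) ≤ (2 : ℝ) ^ (-(c * (n * √n))) *
      (isoClass '' {R : Fin n → Fin n → Prop |
        ∃ F : Finset (Finset ℕ), IsOrderOf R F}).ncard := by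
  obtain ⟨c, hc, N, hN⟩ := eps_cond ε h0 h1
  refine ⟨c, hc, N, fun n hn => ?_⟩
  obtain ⟨hn2, hc2, hkn, hcond, hs, he⟩ := hN n hn
  have hexp : (2 : ℝ) ^ (-((⌊ε * n⌋₊ : ℝ) * √(⌊ε * n⌋₊ : ℝ) / 2000)) ≤
      (2 : ℝ) ^ (-(c * (n * √n))) := by
    apply Real.rpow_le_rpow_of_exponent_le (by norm_num)
    linarith
  refine ⟨hc2, fun m hm => ?_, ?_, ?_⟩
  · have hmain := fam_bound hn2 hkn hcond hm
    refine le_trans ?_ (hmain.trans (mul_le_mul_of_nonneg_right hexp (by positivity)))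
    have hsub : ({F | F ∈ famG n (Fin m) ∧ ¬ Abundant F ⌊ε * n⌋₊ (c * √n)} :
        Set (Finset (Finset (Fin m)))) ⊆
        {F | F ∈ famG n (Fin m) ∧ ¬ Abundant F ⌊ε * n⌋₊ (√(⌊ε * n⌋₊ : ℝ) / 400)} :=
      fun F hF => ⟨hF.1, fun h => hF.2 (h.mono hs)⟩
    exact_mod_cast Set.ncard_le_ncard hsub (Set.toFinite _)
  · have hmain := (orders_bound hn2 hkn hcond).1
    refine le_trans ?_ (hmain.trans (mul_le_mul_of_nonneg_right hexp (by positivity)))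
    have hsub : {R : Fin n → Fin n → Prop | ∃ F : Finset (Finset ℕ), IsOrderOf R F ∧
        ¬ Abundant F ⌊ε * n⌋₊ (c * √n)} ⊆ {R : Fin n → Fin n → Prop | ∃ F : Finset (Finset ℕ),
          IsOrderOf R F ∧ ¬ Abundant F ⌊ε * n⌋₊ (√(⌊ε * n⌋₊ : ℝ) / 400)} := by
      rintro R ⟨F, hF1, hF2⟩
      exact ⟨F, hF1, fun h => hF2 (h.mono hs)⟩
    exact_mod_cast Set.ncard_le_ncard hsub (Set.toFinite _)
  · have hmain := (orders_bound hn2 hkn hcond).2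
    refine le_trans ?_ (hmain.trans (mul_le_mul_of_nonneg_right hexp (by positivity)))
    have hsub : {R : Fin n → Fin n → Prop | ∃ F : Finset (Finset ℕ), IsOrderOf R F ∧
        ¬ Abundant F ⌊ε * n⌋₊ (c * √n)} ⊆ {R : Fin n → Fin n → Prop | ∃ F : Finset (Finset ℕ),
          IsOrderOf R F ∧ ¬ Abundant F ⌊ε * n⌋₊ (√(⌊ε * n⌋₊ : ℝ) / 400)} := by
      rintro R ⟨F, hF1, hF2⟩
      exact ⟨F, hF1, fun h => hF2 (h.mono hs)⟩
    exact_mod_cast Set.ncard_le_ncard (Set.image_mono hsub) (Set.toFinite _)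

end Pool.Agent.N363.SL
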